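import Mathlib
import Pool.Agent.Lib.MP_9087e4_co.Leaf
import Pool.Agent.Lib.MP_f8e628_co.Colours

set_option autoImplicit false

namespace Pool.Agent.Lib.MP_9087e4_co.Mx

open Finset Polynomial

/-- the row of the cross system for the pair `p = (x, w)` -/
def tRow {V R : Type*} [DecidableEq V] [CommRing R] (b : ℕ) (a : V → R) (p : V × V) :
    V × Fin b → R :=
  fun c => (if c.1 = p.1 then (a p.1 - a p.2) ^ (c.2 : ℕ) else 0) -
    (if c.1 = p.2 then (a p.1 - a p.2) ^ (c.2 : ℕ) else 0)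

/-- the cross system has independent rows at some point -/
def TInd {V : Type*} [DecidableEq V] (b : ℕ) (P : Finset (V × V)) : Prop :=
  ∃ a : V → ℝ, Ind (tRow b a) P

/-- neighbours of a left vertex -/
def nL {V : Type*} [Fintype V] [DecidableEq V] (P : Finset (V × V)) (x : V) : Finset V :=
  univ.filter fun w => (x, w) ∈ P

/-- neighbours of a right vertex -/
def nR {V : Type*} [Fintype V] [DecidableEq V] (P : Finset (V × V)) (w : V) : Finset V :=
  univ.filter fun x => (x, w) ∈ P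

@[simp] theorem mem_nL {V : Type*} [Fintype V] [DecidableEq V] {P : Finset (V × V)} {x w : V} :
    w ∈ nL P x ↔ (x, w) ∈ P := by simp [nL]

@[simp] theorem mem_nR {V : Type*} [Fintype V] [DecidableEq V] {P : Finset (V × V)} {x w : V} :
    x ∈ nR P w ↔ (x, w) ∈ P := by simp [nR]

/-- what the right vertex `w` pays if it gets the colour `r` -/
noncomputable def pay {V α : Type*} [Fintype V] [DecidableEq V] [DecidableEq α]
    (P : Finset (V × V)) (w : V) (r : α) (col : V → α) : ℝ :=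
  ∑ x ∈ nR P w, (1 - 1 / (((((nL P x).erase w).filter fun w' => col w' = r).card : ℝ) + 1))

/-- the uniform law on `K` colours -/
noncomputable def uni (ι : Type*) (K : ℕ) : ι → Fin K → ℝ := fun _ _ => (K : ℝ)⁻¹

theorem uni_nonneg (ι : Type*) (K : ℕ) (i : ι) (a : Fin K) : 0 ≤ uni ι K i a := by
  simp [uni]

theorem uni_sum (ι : Type*) {K : ℕ} (hK : 0 < K) (i : ι) : ∑ a, uni ι K i a = 1 := by
  simp [uni, hK.ne']

/-- the expected number of colours on `D` points -/
noncomputable def sK (K D : ℕ) : ℝ := K * (1 - (1 - (K : ℝ)⁻¹) ^ D)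

/-- locally sparse graphs of maximum degree `D` are independent in dimension `γ D` -/
def Good (γ : ℝ) : Prop :=
  ∃ δ : ℝ, 0 < δ ∧ ∃ D0 : ℕ, ∀ D : ℕ, D0 ≤ D → ∀ (V : Type) [Fintype V] [LinearOrder V]
    (q : V → Fin 2 → ℝ), Generic q → ∀ F : Finset (Sym2 V), (∀ e ∈ F, ¬ e.IsDiag) →
    (∀ v, (nb F v).card ≤ D) →
    (∀ u v, u ≠ v → ((nb F u ∩ nb F v).card : ℝ) * Real.log D ≤ δ * D) →
    ∀ k : ℕ, γ * D ≤ k + 1 → GInd k F

end Pool.Agent.Lib.MP_9087e4_co.Mx
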