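import Mathlib
import Pool.Agent.Lib.MP_9087e4_co.Mx.Defs

set_option autoImplicit false

namespace Pool.Agent.Lib.MP_9087e4_co.Mx

open Finset Polynomial Pool.Agent.Lib.MP_f8e628_co

/-- independence in the generic rigidity matroid -/
def RInd {V : Type*} [DecidableEq V] (d : ℕ) (F : Finset (Sym2 V)) : Prop :=
  ∃ p : V → Fin d → ℝ, Ind (rigRow p) F

/-- the mean share of an edge at a vertex of colour load `μ` -/
noncomputable def hh (μ : ℝ) : ℝ := ∫ u in (0 : ℝ)..1, Real.exp (-(μ * u))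

/-- the number of colours seen by `n` points, in the Poisson model -/
noncomputable def gg (K n : ℝ) : ℝ := K * (1 - Real.exp (-(n / K)))

/-- the uniform laws on the sets `S i` of `m` colours -/
noncomputable def lawS {ι α : Type*} [DecidableEq α] (S : ι → Finset α) (m : ℕ) : ι → α → ℝ :=
  fun i a => if a ∈ S i then (m : ℝ)⁻¹ else 0

/-- the harmonic degree condition -/
def Harm {V : Type*} [LinearOrder V] [Fintype V] (F : Finset (Sym2 V)) (ρ : ℝ) : Prop :=
  ∀ u v, s(u, v) ∈ F →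
    ((nb F u).card : ℝ) * (nb F v).card ≤ ρ * ((nb F u).card + (nb F v).card)

/-- the harmonic degree condition for a bipartite graph -/
def HarmP {V : Type*} [Fintype V] [DecidableEq V] (P : Finset (V × V)) (ρ : ℝ) : Prop :=
  ∀ p ∈ P, ((nL P p.1).card : ℝ) * (nR P p.2).card ≤ ρ * ((nL P p.1).card + (nR P p.2).card)

/-- locally sparse graphs with harmonic parameter `ρ` are independent in dimension `γ ρ` -/
def Good2 (γ : ℝ) : Prop :=
  ∃ δ : ℝ, 0 < δ ∧ ∃ ρ0 : ℝ, ∀ ρ : ℝ, ρ0 ≤ ρ → ∀ (V : Type) [Fintype V] [LinearOrder V]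
    (F : Finset (Sym2 V)), (∀ e ∈ F, ¬ e.IsDiag) → Harm F ρ →
    (∀ u v, u ≠ v → ((nb F u ∩ nb F v).card : ℝ) ≤ δ * ρ) →
    ∀ k : ℕ, γ * ρ ≤ k + 1 → GInd k F ∧ RInd (k + 1) F

theorem harm_scale {a b A B t ρ : ℝ} (ha : 0 < a) (hb : 0 < b) (ht : 0 < t) (h1 : a ≤ t * A)
    (h2 : b ≤ t * B) (h : A * B ≤ ρ * (A + B)) : a * b ≤ t * ρ * (a + b) := by
  have hA : 0 < A := (pos_iff_pos_of_mul_pos (ha.trans_le h1)).1 ht
  have hB : 0 < B := (pos_iff_pos_of_mul_pos (hb.trans_le h2)).1 ht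
  have hρ : 0 < ρ := by
    by_contra hc
    nlinarith [mul_pos hA hB, mul_nonneg (neg_nonneg.2 (not_lt.1 hc)) (add_pos hA hB).le]
  refine le_of_mul_le_mul_right ?_ (mul_pos hA hB)
  have e1 := mul_le_mul_of_nonneg_left h (mul_pos ha hb).le
  have e2 := mul_le_mul_of_nonneg_left h1 (mul_pos (mul_pos hρ hb) hB).le
  have e3 := mul_le_mul_of_nonneg_left h2 (mul_pos (mul_pos hρ ha) hA).le
  nlinarith

end Pool.Agent.Lib.MP_9087e4_co.Mx
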