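import Mathlib
import Pool.Agent.Lib.MP_9087e4_co.Mx.Defs2

set_option autoImplicit false

namespace Pool.Agent.Lib.MP_9087e4_co.Mx

open Finset Polynomial Pool.Agent.Lib.MP_f8e628_co

lemma na_prod {α : Type} [DecidableEq α] (u e : α → ℝ) (hu : ∀ a, 0 ≤ u a) (he : ∀ a, 0 ≤ e a)
    (s : Finset α) :
    ∏ r ∈ s, u r + ∑ a ∈ s, e a * ∏ r ∈ s.erase a, u r ≤ ∏ r ∈ s, (u r + e r) := by
  induction s using Finset.induction_on with
  | empty => simp
  | insert b s hb ih =>
    rw [prod_insert hb, prod_insert hb, sum_insert hb, erase_insert hb]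
    have e1 : ∑ a ∈ s, e a * ∏ r ∈ (insert b s).erase a, u r =
        u b * ∑ a ∈ s, e a * ∏ r ∈ s.erase a, u r := by
      rw [mul_sum]
      refine sum_congr rfl fun a ha => ?_
      have hne : b ≠ a := fun h => hb (h ▸ ha)
      rw [erase_insert_of_ne hne, prod_insert fun h => hb (mem_of_mem_erase h)]
      ring
    have e2 : 0 ≤ ∑ a ∈ s, e a * ∏ r ∈ s.erase a, u r :=
      sum_nonneg fun a _ => mul_nonneg (he a) (prod_nonneg fun r _ => hu r)
    rw [e1]
    refine le_trans ?_ (mul_le_mul_of_nonneg_left ih (add_nonneg (hu b) (he b)))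
    nlinarith [mul_nonneg (he b) e2]

lemma na_one {α : Type} [Fintype α] [DecidableEq α] (ν : α → ℝ) (h0 : ∀ a, 0 ≤ ν a)
    (h1 : ∑ a, ν a = 1) (F : α → α → ℝ) (hF0 : ∀ r a, 0 ≤ F r a)
    (hF : ∀ r a a', a ≠ r → F r a ≤ F r a') :
    ∑ a, ν a * ∏ r, F r a ≤ ∏ r, ∑ a, ν a * F r a := by
  obtain ⟨u, hu0, hu1, hu2⟩ : ∃ u : α → ℝ, (∀ r, 0 ≤ u r) ∧ (∀ r, u r ≤ F r r) ∧
      ∀ r a, a ≠ r → F r a = u r := by
    refine ⟨fun r => univ.inf' ⟨r, mem_univ r⟩ (F r), fun r => le_inf' _ _ fun a _ => hF0 r a,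
      fun r => inf'_le _ (mem_univ r), fun r a h => le_antisymm ?_ (inf'_le _ (mem_univ a))⟩
    exact le_inf' _ _ fun a' _ => hF r a a' h
  have e1 : ∀ a, ν a * ∏ r, F r a =
      ν a * ∏ r, u r + ν a * (F a a - u a) * ∏ r ∈ univ.erase a, u r := fun a => by
    rw [← mul_prod_erase univ (fun r => F r a) (mem_univ a), ← mul_prod_erase univ u (mem_univ a),
      prod_congr rfl fun r hr => hu2 r a (ne_of_mem_erase hr).symm]
    ring
  have e2 : ∀ r, ∑ a, ν a * F r a = u r + ν r * (F r r - u r) := fun r => by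
    have e : ∀ a, ν a * F r a = ν a * u r + if a = r then ν r * (F r r - u r) else 0 := fun a => by
      by_cases h : a = r
      · rw [if_pos h, h]
        ring
      · rw [if_neg h, hu2 r a h, add_zero]
    simp only [e, sum_add_distrib, ← sum_mul, h1, one_mul, sum_ite_eq', mem_univ, if_true]
  simp only [e1, e2, sum_add_distrib, ← sum_mul, h1, one_mul]
  exact na_prod u (fun a => ν a * (F a a - u a)) hu0
    (fun a => mul_nonneg (h0 a) (sub_nonneg.2 (hu1 a))) univ

lemma na_upd {ι α : Type} [DecidableEq ι] {T : Finset ι} {i : ι} (hi : i ∉ T) (ξ' ξ : ι → α)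
    (a : α) : T.piecewise ξ' (Function.update ξ i a) = Function.update (T.piecewise ξ' ξ) i a := by
  funext j
  by_cases h : j = i
  · subst h
    simp [piecewise, hi]
  · simp [piecewise, h]

lemma na_ins {ι α : Type} [DecidableEq ι] (T : Finset ι) (i : ι) (ξ' ξ : ι → α) (a : α) :
    (insert i T).piecewise (Function.update ξ' i a) ξ =
      Function.update (T.piecewise ξ' ξ) i a := by
  funext j
  by_cases h : j = i
  · subst h
    simp [piecewise]
  · simp [piecewise, h]

/-- increasing functions of different colour classes are negatively associated -/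
theorem neg_assoc {ι α : Type} [Fintype ι] [DecidableEq ι] [Fintype α] [DecidableEq α]
    (ν : ι → α → ℝ) (h0 : ∀ i a, 0 ≤ ν i a) (h1 : ∀ i, ∑ a, ν i a = 1)
    (f : α → (ι → α) → ℝ) (hf0 : ∀ r ξ, 0 ≤ f r ξ)
    (hf : ∀ r ξ ξ', (∀ i, ξ i = r → ξ' i = r) → f r ξ ≤ f r ξ') :
    ∑ ξ, pw ν ξ * ∏ r, f r ξ ≤ ∏ r, ∑ ξ, pw ν ξ * f r ξ := by
  have hw := pw_nonneg h0
  have key : ∀ T : Finset ι, ∑ ξ, pw ν ξ * ∏ r, f r ξ ≤
      ∑ ξ, pw ν ξ * ∏ r, ∑ ξ', pw ν ξ' * f r (T.piecewise ξ' ξ) := by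
    intro T
    induction T using Finset.induction_on with
    | empty => simp [← sum_mul, pw_sum_one h1]
    | insert i T hi ih =>
      refine ih.trans ?_
      rw [pw_resample h1 i]
      refine sum_le_sum fun ξ _ => mul_le_mul_of_nonneg_left ?_ (hw ξ)
      have e : ∀ r, ∑ ξ', pw ν ξ' * f r ((insert i T).piecewise ξ' ξ) =
          ∑ a, ν i a * ∑ ξ', pw ν ξ' * f r (T.piecewise ξ' (Function.update ξ i a)) := by
        intro r
        rw [pw_resample h1 i]
        simp only [na_upd hi, na_ins, mul_sum]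
        rw [sum_comm]
        exact sum_congr rfl fun a _ => sum_congr rfl fun ξ' _ => by ring
      simp only [e]
      refine na_one (ν i) (h0 i) (h1 i)
        (fun r a => ∑ ξ', pw ν ξ' * f r (T.piecewise ξ' (Function.update ξ i a)))
        (fun r a => sum_nonneg fun ξ' _ => mul_nonneg (hw ξ') (hf0 _ _)) fun r a a' ha => ?_
      refine sum_le_sum fun ξ' _ => mul_le_mul_of_nonneg_left (hf r _ _ fun j hj => ?_) (hw ξ')
      rw [na_upd hi] at hj ⊢
      by_cases h : j = i
      · subst h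
        rw [Function.update_self] at hj
        exact absurd hj ha
      · rw [Function.update_of_ne h] at hj ⊢
        exact hj
  have k := key univ
  simpa only [piecewise_univ, ← sum_mul, pw_sum_one h1, one_mul] using k

end Pool.Agent.Lib.MP_9087e4_co.Mx
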