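import Mathlib
import Pool.Agent.Lib.MP_9087e4_co.Mx.NA

set_option autoImplicit false

namespace Pool.Agent.Lib.MP_9087e4_co.Mx

open Finset Polynomial Pool.Agent.Lib.MP_f8e628_co

theorem tail_bad_aux1 {α : Type} [Fintype α] (μ : α → ℝ) (r : α) :
    ∑ a, μ a * ind (a = r) = μ r := by
  rw [Finset.sum_eq_single r (fun a _ h => by rw [ind_neg h, mul_zero]) (by simp), ind_pos rfl,
    mul_one]

theorem tail_bad_aux2 {ι α : Type} [Fintype ι] [DecidableEq ι] [Fintype α] {ν : ι → α → ℝ}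
    (h0 : ∀ i a, 0 ≤ ν i a) (h1 : ∀ i, ∑ a, ν i a = 1) (S : Finset ι) (r : α) {c : ℝ}
    (hc : ∀ i, ν i r ≤ c) :
    ∑ ξ, pw ν ξ * Real.exp (2 * ∑ i ∈ S, ind (ξ i = r)) ≤ Real.exp (S.card * (7 * c)) := by
  have e : ∀ ξ : ι → α, Real.exp (2 * ∑ i ∈ S, ind (ξ i = r)) =
      ∏ i, if i ∈ S then Real.exp (2 * ind (ξ i = r)) else 1 := fun ξ => by
    rw [Finset.mul_sum, Real.exp_sum, Finset.prod_ite_mem, Finset.univ_inter]
  have e2 : Real.exp (S.card * (7 * c)) = ∏ i, if i ∈ S then Real.exp (7 * c) else 1 := by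
    rw [Finset.prod_ite_mem, Finset.univ_inter, Finset.prod_const, Real.exp_nat_mul]
  have e3 : ∀ P : Prop, Real.exp (2 * ind P) ≤ 1 + 7 * ind P := fun P => by
    by_cases h : P
    · rw [ind_pos h, mul_one, ← one_add_one_eq_two, Real.exp_add]
      nlinarith [Real.exp_one_lt_d9, Real.exp_pos 1]
    · simp [ind_neg h]
  simp only [e]
  rw [pw_sum_prod ν fun i a => if i ∈ S then Real.exp (2 * ind (a = r)) else 1, e2]
  refine Finset.prod_le_prod (fun i _ => Finset.sum_nonneg fun a _ => mul_nonneg (h0 i a) ?_)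
    fun i _ => ?_
  · split_ifs
    exacts [(Real.exp_pos _).le, zero_le_one]
  split_ifs
  · refine (Finset.sum_le_sum fun a _ => mul_le_mul_of_nonneg_left (e3 _) (h0 i a)).trans ?_
    simp only [mul_add, mul_one, mul_left_comm (ν i _) 7]
    rw [Finset.sum_add_distrib, ← Finset.mul_sum, h1, tail_bad_aux1]
    linarith [Real.add_one_le_exp (7 * c), hc i]
  · simp [h1]

theorem tail_bad_aux3 (P : Prop) (T : ℝ) {A : ℝ} (hA : 0 < A) :
    ind P * Real.exp (1 + T) ≤ 3 / 2 * (A * ind P) + 3 / (2 * A) * Real.exp (2 * T) := by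
  by_cases h : P
  · have h1 : 2 * Real.exp T ≤ A + Real.exp T * Real.exp T / A := by
      rw [← sub_le_iff_le_add', le_div_iff₀ hA]
      nlinarith [sq_nonneg (Real.exp T - A)]
    have h2 : 3 / (2 * A) * (Real.exp T * Real.exp T) = 3 / 2 * (Real.exp T * Real.exp T / A) := by
      field_simp
    rw [ind_pos h, two_mul T, Real.exp_add, Real.exp_add, h2]
    nlinarith [Real.exp_one_lt_d9, Real.exp_pos T]
  · rw [ind_neg h, zero_mul]
    positivity

theorem tail_bad (θ η : ℝ) (hθ : 0 < θ) (hη : 0 < η) : ∃ p0 : ℝ, 0 < p0 ∧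
    ∀ (ι α : Type) [Fintype ι] [DecidableEq ι] [Fintype α] [DecidableEq α] (ν : ι → α → ℝ),
      (∀ i a, 0 ≤ ν i a) → (∀ i, ∑ a, ν i a = 1) → ∀ D : ℝ, 0 < D →
      (∀ i a, ν i a ≤ 1 / (θ * D)) → ∀ N : Finset ι, (N.card : ℝ) ≤ D →
      ∀ B : ι → α → (ι → α) → Prop,
      (∀ w r ξ ξ', (∀ i, i ≠ w → ξ i = r → ξ' i = r) → B w r ξ → B w r ξ') →
      (∀ w r, ν w r ≠ 0 → mass (pw ν) (B w r) ≤ p0) →
      mass (pw ν) (fun ξ => η * D ≤ ∑ w ∈ N, ind (B w (ξ w) ξ)) ≤ Real.exp (-(η * D / 2)) := by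
  obtain ⟨Q, hQ⟩ : ∃ Q, Q = Real.exp (7 / θ) := ⟨_, rfl⟩
  have Q0 : 0 < Q := hQ ▸ Real.exp_pos _
  obtain ⟨z, hz⟩ : ∃ z, z = η / 12 := ⟨_, rfl⟩
  have z0 : 0 < z := by linarith
  refine ⟨z ^ 2 / Q, by positivity, fun ι α _ _ _ _ ν h0 h1 D hD hν N hN B hB hp => ?_⟩
  have hw := pw_nonneg h0
  obtain ⟨Y, hY⟩ : ∃ Y : α → (ι → α) → ℝ,
      ∀ r ξ, Y r ξ = ∑ w ∈ N, ind (ξ w = r) * ind (B w r ξ) := ⟨_, fun _ _ => rfl⟩
  obtain ⟨T, hT⟩ : ∃ T : ι → α → (ι → α) → ℝ,
      ∀ w r ξ, T w r ξ = ∑ i ∈ N.erase w, ind (ξ i = r) := ⟨_, fun _ _ _ => rfl⟩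
  have k1 : ∀ w r, ν w r * ∑ ξ, pw ν ξ * (ind (B w r ξ) * Real.exp (1 + T w r ξ)) ≤
      ν w r * (3 * z) := fun w r => by
    by_cases h : ν w r = 0
    · simp [h]
    refine mul_le_mul_of_nonneg_left ?_ (h0 w r)
    have a1 := hp w r h
    have a2 : ∑ ξ, pw ν ξ * Real.exp (2 * T w r ξ) ≤ Q := by
      simp only [hT]
      refine (tail_bad_aux2 h0 h1 _ r fun i => hν i r).trans ?_
      rw [hQ, Real.exp_le_exp]
      refine (mul_le_mul_of_nonneg_right ((Nat.cast_le.2 Finset.card_erase_le).trans hN)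
        (by positivity)).trans_eq ?_
      field_simp
    refine (Finset.sum_le_sum fun ξ _ => mul_le_mul_of_nonneg_left
      (tail_bad_aux3 _ _ (div_pos Q0 z0)) (hw ξ)).trans ?_
    simp only [mul_add, mul_left_comm (pw ν _) (3 / 2), mul_left_comm (pw ν _) (Q / z),
      mul_left_comm (pw ν _) (3 / (2 * (Q / z)))]
    rw [Finset.sum_add_distrib, ← Finset.mul_sum, ← Finset.mul_sum, ← Finset.mul_sum]
    refine (add_le_add (mul_le_mul_of_nonneg_left (mul_le_mul_of_nonneg_left a1 (by positivity))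
      (by positivity)) (mul_le_mul_of_nonneg_left a2 (by positivity))).trans_eq ?_
    field_simp
    ring
  have k2 : ∀ w r, ∑ ξ, pw ν ξ * (ind (ξ w = r) * (ind (B w r ξ) * Real.exp (1 + T w r ξ))) =
      ν w r * ∑ ξ, pw ν ξ * (ind (B w r ξ) * Real.exp (1 + T w r ξ)) := fun w r => by
    rw [pw_resample h1 w, Finset.mul_sum]
    refine Finset.sum_congr rfl fun ξ _ => ?_
    rw [mul_left_comm, ← tail_bad_aux1 (ν w) r, Finset.sum_mul]
    refine congrArg _ (Finset.sum_congr rfl fun a _ => ?_)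
    have b1 : T w r (Function.update ξ w a) = T w r ξ := by
      rw [hT, hT]
      exact Finset.sum_congr rfl fun i hi => by
        rw [Function.update_of_ne (Finset.ne_of_mem_erase hi)]
    rw [Function.update_self, b1, mul_assoc, MP_f8e628_co.ind_congr (Q := B w r ξ)
      ⟨hB w r _ _ fun i hi => by rw [Function.update_of_ne hi]; exact id,
        hB w r _ _ fun i hi => by rw [Function.update_of_ne hi]; exact id⟩]
  have k3 : ∀ r ξ, Real.exp (Y r ξ) ≤
      1 + ∑ w ∈ N, ind (ξ w = r) * (ind (B w r ξ) * Real.exp (1 + T w r ξ)) := fun r ξ => by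
    have b1 : Real.exp (Y r ξ) ≤ 1 + Y r ξ * Real.exp (Y r ξ) := by
      have := mul_le_mul_of_nonneg_right (Real.add_one_le_exp (-Y r ξ)) (Real.exp_pos (Y r ξ)).le
      rw [← Real.exp_add, neg_add_cancel, Real.exp_zero] at this
      linarith
    refine b1.trans (add_le_add le_rfl ?_)
    nth_rw 1 [hY]
    rw [Finset.sum_mul]
    refine Finset.sum_le_sum fun w hw' => ?_
    rw [mul_assoc]
    refine mul_le_mul_of_nonneg_left (mul_le_mul_of_nonneg_left (Real.exp_le_exp.2 ?_)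
      (ind_nonneg _)) (ind_nonneg _)
    rw [hY, hT, ← Finset.add_sum_erase _ _ hw']
    exact add_le_add (mul_le_one₀ (ind_le_one _) (ind_nonneg _) (ind_le_one _))
      (Finset.sum_le_sum fun i _ => mul_le_of_le_one_right (ind_nonneg _) (ind_le_one _))
  have k4 : ∀ r, ∑ ξ, pw ν ξ * Real.exp (Y r ξ) ≤ Real.exp (∑ w ∈ N, ν w r * (3 * z)) := by
    intro r
    refine (Finset.sum_le_sum fun ξ _ => mul_le_mul_of_nonneg_left (k3 r ξ) (hw ξ)).trans ?_
    simp only [mul_add, mul_one, Finset.mul_sum]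
    rw [Finset.sum_add_distrib, pw_sum_one h1, Finset.sum_comm, add_comm]
    refine (add_le_add (Finset.sum_le_sum fun w _ => ?_) le_rfl).trans (Real.add_one_le_exp _)
    exact (k2 w r).trans_le (k1 w r)
  have k5 := (neg_assoc ν h0 h1 (fun r ξ => Real.exp (Y r ξ)) (fun _ _ => (Real.exp_pos _).le)
    fun r ξ ξ' h => Real.exp_le_exp.2 (by
      rw [hY, hY]
      exact Finset.sum_le_sum fun w _ => mul_le_mul (ind_mono (h w))
        (ind_mono (hB w r _ _ fun i _ => h i)) (ind_nonneg _) (ind_nonneg _))).trans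
    (Finset.prod_le_prod (fun r _ => Finset.sum_nonneg fun ξ _ =>
      mul_nonneg (hw ξ) (Real.exp_pos _).le) fun r _ => k4 r)
  have k6 : ∀ ξ, ∑ r, Y r ξ = ∑ w ∈ N, ind (B w (ξ w) ξ) := fun ξ => by
    simp only [hY]
    rw [Finset.sum_comm]
    refine Finset.sum_congr rfl fun w _ => ?_
    rw [← tail_bad_aux1 (fun r => ind (B w r ξ)) (ξ w)]
    exact Finset.sum_congr rfl fun r _ => by rw [mul_comm, MP_f8e628_co.ind_congr eq_comm]
  simp only [← Real.exp_sum, k6] at k5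
  rw [Finset.sum_comm] at k5
  simp only [← Finset.sum_mul, h1, one_mul, Finset.sum_const, nsmul_eq_mul] at k5
  have k7 : mass (pw ν) (fun ξ => η * D ≤ ∑ w ∈ N, ind (B w (ξ w) ξ)) ≤
      Real.exp (-(η * D)) * ∑ ξ, pw ν ξ * Real.exp (∑ w ∈ N, ind (B w (ξ w) ξ)) := by
    rw [mass, Finset.mul_sum]
    refine Finset.sum_le_sum fun ξ _ => ?_
    rw [mul_left_comm, ← Real.exp_add]
    refine mul_le_mul_of_nonneg_left ?_ (hw ξ)
    by_cases h : η * D ≤ ∑ w ∈ N, ind (B w (ξ w) ξ)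
    · rw [ind_pos h]
      exact Real.one_le_exp (by linarith)
    · rw [ind_neg h]
      exact (Real.exp_pos _).le
  refine k7.trans ((mul_le_mul_of_nonneg_left k5 (Real.exp_pos _).le).trans ?_)
  rw [← Real.exp_add, Real.exp_le_exp, hz]
  nlinarith [mul_le_mul_of_nonneg_right hN hη.le, mul_pos hη hD]

end Pool.Agent.Lib.MP_9087e4_co.Mx
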