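import Mathlib
import Pool.Agent.Lib.MP_9087e4_co.Mx.Defs

set_option autoImplicit false

namespace Pool.Agent.Lib.MP_9087e4_co.Mx

open Finset Polynomial Pool.Agent.Lib.MP_f8e628_co

theorem lll_vars {ι α J : Type} [Fintype ι] [DecidableEq ι] [Fintype α] [Fintype J]
    [DecidableEq J] (ν : ι → α → ℝ) (h0 : ∀ i a, 0 ≤ ν i a) (h1 : ∀ i, ∑ a, ν i a = 1)
    (B : J → (ι → α) → Prop) (Dp : J → Finset ι)
    (hdep : ∀ j ξ ξ', (∀ i ∈ Dp j, ξ i = ξ' i) → B j ξ → B j ξ') (s t p : ℝ)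
    (hs : ∀ j, ((Dp j).card : ℝ) ≤ s)
    (ht : ∀ i, ((univ.filter fun j => i ∈ Dp j).card : ℝ) ≤ t) (hs0 : 0 ≤ s) (ht0 : 0 ≤ t)
    (hp0 : 0 ≤ p) (hp : ∀ j, mass (pw ν) (B j) ≤ p) (h4 : 4 * p * (s * t + 1) ≤ 1) :
    ∃ ξ, ∀ j, ¬ B j ξ := by
  classical
  have hst : 0 ≤ s * t := mul_nonneg hs0 ht0
  obtain ⟨ξ, -, hξ⟩ := lll (pw ν) (pw_nonneg h0) (pw_sum_one h1) B
    (fun j => (Dp j).biUnion fun i => univ.filter fun j' => i ∈ Dp j') (s * t + 1) p
    (fun j => by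
      have e1 : ((((Dp j).biUnion fun i => univ.filter fun j' => i ∈ Dp j').card : ℕ) : ℝ) ≤
          ∑ i ∈ Dp j, ((univ.filter fun j' => i ∈ Dp j').card : ℝ) := by
        exact_mod_cast card_biUnion_le
      have e2 : ∑ i ∈ Dp j, ((univ.filter fun j' => i ∈ Dp j').card : ℝ) ≤ (Dp j).card * t := by
        have := sum_le_card_nsmul (Dp j)
          (fun i => ((univ.filter fun j' => i ∈ Dp j').card : ℝ)) t fun i _ => ht i
        rwa [nsmul_eq_mul] at this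
      have e3 : ((Dp j).card : ℝ) * t ≤ s * t := mul_le_mul_of_nonneg_right (hs j) ht0
      linarith)
    (by linarith) hp0 h4 (fun j S hS => by
      have hout : ∀ j' ∈ S, ∀ i ∈ Dp j', i ∉ Dp j := fun j' hj' i hi hij =>
        hS j' hj' (mem_biUnion.mpr ⟨i, hij, mem_filter.mpr ⟨mem_univ _, hi⟩⟩)
      have key := pw_indep h1 (Dp j) (fun ω => ind (B j ω)) (fun ω => ind (∀ i ∈ S, ¬ B i ω))
        (fun ω ω' h => MP_f8e628_co.ind_congr ⟨hdep j ω ω' h, hdep j ω' ω fun i hi => (h i hi).symm⟩)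
        (fun ω ω' h => MP_f8e628_co.ind_congr
          ⟨fun hb i hi hc => hb i hi (hdep i ω' ω (fun k hk => (h k (hout i hi k hk)).symm) hc),
           fun hb i hi hc => hb i hi (hdep i ω ω' (fun k hk => h k (hout i hi k hk)) hc)⟩)
      have e : mass (pw ν) (fun ω => B j ω ∧ ∀ i ∈ S, ¬ B i ω) =
          mass (pw ν) (B j) * mass (pw ν) (fun ω => ∀ i ∈ S, ¬ B i ω) := by
        unfold mass
        rw [← key]
        exact sum_congr rfl fun ω _ => by rw [ind_and]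
      rw [e]
      exact mul_le_mul_of_nonneg_right (hp j) (mass_nonneg (pw_nonneg h0) _))
  exact ⟨ξ, hξ⟩

theorem bis_num (c : ℝ) (hc : 0 < c) :
    ∃ D0 : ℕ, 12 ≤ D0 ∧ ∀ D : ℕ, D0 ≤ D → Real.log D ≤ c * D := by
  have h := (Real.isLittleO_log_id_atTop.comp_tendsto tendsto_natCast_atTop_atTop).bound hc
  obtain ⟨N, hN⟩ := Filter.eventually_atTop.mp h
  refine ⟨max 12 N, le_max_left _ _, fun D hD => ?_⟩
  have h1 := hN D ((le_max_right _ _).trans hD)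
  simp only [Function.comp, id, Real.norm_eq_abs, Nat.abs_cast] at h1
  exact (le_abs_self _).trans h1

theorem lll_num (D : ℝ) (hD : 12 ≤ D) :
    4 * Real.exp (-(6 * Real.log D)) * (D ^ 2 * (2 * D ^ 3) + 1) ≤ 1 := by
  have hD0 : 0 < D := by linarith
  have e : Real.exp (-(6 * Real.log D)) = 1 / D ^ 6 := by
    rw [Real.exp_neg, show 6 * Real.log D = Real.log (D ^ 6) by rw [Real.log_pow]; norm_num,
      Real.exp_log (by positivity), one_div]
  rw [e]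
  have h5 : 1 ≤ D ^ 5 := one_le_pow₀ (by linarith)
  have h6 : 8 * D ^ 5 + 4 ≤ D ^ 6 := by
    have : D ^ 6 = D ^ 5 * D := by ring
    nlinarith
  have e2 : 4 * (1 / D ^ 6) * (D ^ 2 * (2 * D ^ 3) + 1) = (8 * D ^ 5 + 4) / D ^ 6 := by
    field_simp; ring
  rw [e2, div_le_one (by positivity)]
  exact h6

end Pool.Agent.Lib.MP_9087e4_co.Mx
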