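import Mathlib
import Pool.Agent.Lib.MP_9087e4_co.Mx.Defs

set_option autoImplicit false

namespace Pool.Agent.Lib.MP_9087e4_co.Mx

open Finset Polynomial Pool.Agent.Lib.MP_f8e628_co

lemma tail_one {α : Type} [Fintype α] (ν : α → ℝ) (h0 : ∀ a, 0 ≤ ν a) (h1 : ∑ a, ν a = 1)
    (F c : α → ℝ) (y l : ℝ) (hl0 : 0 ≤ l) (hc : ∀ a, |F a - y| ≤ c a) (hl : ∀ a, l * c a ≤ 1) :
    ∑ a, ν a * Real.exp (l * F a) ≤
      Real.exp (l ^ 2 * ∑ a, ν a * c a ^ 2) * Real.exp (l * ∑ a, ν a * F a) := by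
  have k1 : ∀ a, Real.exp (l * F a) ≤
      Real.exp (l * y) * (1 + l * (F a - y) + l ^ 2 * c a ^ 2) := fun a => by
    have e1 : |l * (F a - y)| ≤ l * c a := by
      rw [abs_mul, abs_of_nonneg hl0]
      exact mul_le_mul_of_nonneg_left (hc a) hl0
    have e2 := (abs_le.1 (Real.abs_exp_sub_one_sub_id_le (e1.trans (hl a)))).2
    have e3 : (l * (F a - y)) ^ 2 ≤ (l * c a) ^ 2 := sq_le_sq' (abs_le.1 e1).1 (abs_le.1 e1).2
    have e4 : Real.exp (l * F a) = Real.exp (l * y) * Real.exp (l * (F a - y)) := by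
      rw [← Real.exp_add]; congr 1; ring
    rw [e4]
    refine mul_le_mul_of_nonneg_left ?_ (Real.exp_pos _).le
    nlinarith
  have k2 : ∑ a, ν a * (Real.exp (l * y) * (1 + l * (F a - y) + l ^ 2 * c a ^ 2)) =
      Real.exp (l * y) * (l * ((∑ a, ν a * F a) - y) + l ^ 2 * (∑ a, ν a * c a ^ 2) + 1) := by
    have e : ∀ a, ν a * (Real.exp (l * y) * (1 + l * (F a - y) + l ^ 2 * c a ^ 2)) =
        Real.exp (l * y) * (1 - l * y) * ν a + Real.exp (l * y) * l * (ν a * F a) +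
          Real.exp (l * y) * l ^ 2 * (ν a * c a ^ 2) := fun a => by ring
    simp only [e, sum_add_distrib, ← mul_sum, h1]
    ring
  refine (sum_le_sum fun a _ => mul_le_mul_of_nonneg_left (k1 a) (h0 a)).trans ?_
  rw [k2]
  refine (mul_le_mul_of_nonneg_left (Real.add_one_le_exp _) (Real.exp_pos _).le).trans_eq ?_
  rw [← Real.exp_add, ← Real.exp_add]
  congr 1
  ring

/-- The average over the coordinates in `T`. -/
noncomputable def tailg {ι α : Type} [Fintype ι] [DecidableEq ι] [Fintype α] (ν : ι → α → ℝ)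
    (f : (ι → α) → ℝ) (T : Finset ι) (ξ : ι → α) : ℝ :=
  ∑ ξ', pw ν ξ' * f (T.piecewise ξ' ξ)

lemma tail_upd {ι α : Type} [DecidableEq ι] {T : Finset ι} {i : ι} (hi : i ∉ T) (ξ' ξ : ι → α)
    (a : α) : T.piecewise ξ' (Function.update ξ i a) = Function.update (T.piecewise ξ' ξ) i a := by
  funext j
  by_cases h : j = i
  · subst h
    simp [piecewise, hi]
  · simp [piecewise, h]

lemma tail_ins {ι α : Type} [DecidableEq ι] (T : Finset ι) (i : ι) (ξ' ξ : ι → α) (a : α) :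
    (insert i T).piecewise (Function.update ξ' i a) ξ =
      Function.update (T.piecewise ξ' ξ) i a := by
  funext j
  by_cases h : j = i
  · subst h
    simp [piecewise]
  · simp [piecewise, h]

lemma tail_mgf {ι α : Type} [Fintype ι] [DecidableEq ι] [Fintype α] (ν : ι → α → ℝ)
    (h0 : ∀ i a, 0 ≤ ν i a) (h1 : ∀ i, ∑ a, ν i a = 1) (f : (ι → α) → ℝ) (a0 : α)
    (c : ι → α → ℝ)
    (hc : ∀ ξ i a, |f (Function.update ξ i a) - f (Function.update ξ i a0)| ≤ c i a)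
    (l : ℝ) (hl0 : 0 ≤ l) (hl : ∀ i a, l * c i a ≤ 1) (T : Finset ι) :
    ∑ ξ, pw ν ξ * Real.exp (l * f ξ) ≤ Real.exp (l ^ 2 * ∑ i ∈ T, ∑ a, ν i a * c i a ^ 2) *
      ∑ ξ, pw ν ξ * Real.exp (l * tailg ν f T ξ) := by
  have hw := pw_nonneg h0
  induction T using Finset.induction_on with
  | empty => simp [tailg, ← sum_mul, pw_sum_one h1]
  | insert i T hi ih =>
    refine ih.trans ?_
    rw [sum_insert hi, mul_add, add_comm, Real.exp_add, mul_assoc]
    refine mul_le_mul_of_nonneg_left ?_ (Real.exp_pos _).le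
    rw [pw_resample h1 i, mul_sum]
    refine sum_le_sum fun ξ _ => ?_
    rw [mul_left_comm]
    refine mul_le_mul_of_nonneg_left ?_ (hw ξ)
    have e : tailg ν f (insert i T) ξ = ∑ a, ν i a * tailg ν f T (Function.update ξ i a) := by
      unfold tailg
      rw [pw_resample h1 i]
      simp only [tail_upd hi, tail_ins, mul_sum]
      rw [sum_comm]
      exact sum_congr rfl fun a _ => sum_congr rfl fun ξ' _ => by ring
    rw [e]
    refine tail_one (ν i) (h0 i) (h1 i) _ (c i) (tailg ν f T (Function.update ξ i a0)) l hl0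
      (fun a => ?_) (hl i)
    unfold tailg
    simp only [tail_upd hi]
    rw [← sum_sub_distrib]
    refine (abs_sum_le_sum_abs _ _).trans ?_
    calc _ ≤ ∑ ξ', pw ν ξ' * c i a := sum_le_sum fun ξ' _ => by
          rw [← mul_sub, abs_mul, abs_of_nonneg (hw ξ')]
          exact mul_le_mul_of_nonneg_left (hc _ i a) (hw ξ')
      _ = c i a := by rw [← sum_mul, pw_sum_one h1, one_mul]

theorem pw_tail {ι α : Type} [Fintype ι] [DecidableEq ι] [Fintype α] (ν : ι → α → ℝ)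
    (h0 : ∀ i a, 0 ≤ ν i a) (h1 : ∀ i, ∑ a, ν i a = 1) (f : (ι → α) → ℝ) (a0 : α)
    (c : ι → α → ℝ)
    (hc : ∀ ξ i a, |f (Function.update ξ i a) - f (Function.update ξ i a0)| ≤ c i a)
    (l m v t : ℝ) (hl0 : 0 ≤ l) (hl : ∀ i a, l * c i a ≤ 1) (hm : ∑ ξ, pw ν ξ * f ξ ≤ m)
    (hv : ∑ i, ∑ a, ν i a * c i a ^ 2 ≤ v) :
    mass (pw ν) (fun ξ => m + t ≤ f ξ) ≤ Real.exp (l ^ 2 * v - l * t) := by
  have hw := pw_nonneg h0
  have k1 := tail_mgf ν h0 h1 f a0 c hc l hl0 hl univ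
  have k2 : ∑ ξ, pw ν ξ * Real.exp (l * tailg ν f univ ξ) ≤ Real.exp (l * m) := by
    simp only [tailg, piecewise_univ, ← sum_mul, pw_sum_one h1, one_mul]
    exact Real.exp_le_exp.2 (mul_le_mul_of_nonneg_left hm hl0)
  have k3 : Real.exp (l ^ 2 * ∑ i, ∑ a, ν i a * c i a ^ 2) ≤ Real.exp (l ^ 2 * v) :=
    Real.exp_le_exp.2 (mul_le_mul_of_nonneg_left hv (sq_nonneg l))
  have k4 := k1.trans (mul_le_mul k3 k2
    (sum_nonneg fun ξ _ => mul_nonneg (hw ξ) (Real.exp_pos _).le) (Real.exp_pos _).le)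
  have k5 : mass (pw ν) (fun ξ => m + t ≤ f ξ) ≤
      Real.exp (-(l * (m + t))) * ∑ ξ, pw ν ξ * Real.exp (l * f ξ) := by
    rw [mass, mul_sum]
    refine sum_le_sum fun ξ _ => ?_
    rw [mul_left_comm, ← Real.exp_add]
    refine mul_le_mul_of_nonneg_left ?_ (hw ξ)
    by_cases h : m + t ≤ f ξ
    · rw [ind_pos h]
      exact Real.one_le_exp (by nlinarith)
    · rw [ind_neg h]
      exact (Real.exp_pos _).le
  refine k5.trans ((mul_le_mul_of_nonneg_left k4 (Real.exp_pos _).le).trans_eq ?_)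
  rw [← Real.exp_add, ← Real.exp_add]
  congr 1
  ring

end Pool.Agent.Lib.MP_9087e4_co.Mx
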