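import Mathlib
import Pool.Agent.Lib.MP_9087e4_co.Mx.Tail
import Pool.Agent.Lib.MP_9087e4_co.Mx.Lll

set_option autoImplicit false

namespace Pool.Agent.Lib.MP_9087e4_co.Mx

open Finset Polynomial Pool.Agent.Lib.MP_f8e628_co

theorem bis2_mean {V : Type} [Fintype V] [DecidableEq V] (S : Finset V) (r : Fin 2) :
    ∑ ξ : V → Fin 2, pw (uni V 2) ξ * (∑ i ∈ S, (if ξ i = r then (1 : ℝ) else 0)) =
      (S.card : ℝ) / 2 := by
  have h1 : ∀ i : V, ∑ a, uni V 2 i a = 1 := uni_sum V (by norm_num)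
  have h2 : ∀ i ∈ S, ∑ ξ : V → Fin 2,
      pw (uni V 2) ξ * (if ξ i = r then (1 : ℝ) else 0) = 1 / 2 := by
    intro i _
    rw [pw_resample h1 i (fun ξ => if ξ i = r then (1 : ℝ) else 0)]
    have h3 : ∀ ξ : V → Fin 2, ∑ a, uni V 2 i a *
        (if (Function.update ξ i a) i = r then (1 : ℝ) else 0) = 1 / 2 := by
      intro ξ
      simp [uni]
    simp only [h3]
    rw [← Finset.sum_mul, pw_sum_one h1, one_mul]
  simp only [Finset.mul_sum]
  rw [Finset.sum_comm, Finset.sum_congr rfl h2, Finset.sum_const, nsmul_eq_mul]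
  ring

theorem bis2_tail {V : Type} [Fintype V] [DecidableEq V] (S : Finset V) (r : Fin 2) (e D : ℝ)
    (he0 : 0 ≤ e) (he : e ≤ 2) (hS : (S.card : ℝ) ≤ D) :
    mass (pw (uni V 2)) (fun ξ : V → Fin 2 =>
      (S.card : ℝ) / 2 + e * D ≤ ∑ i ∈ S, (if ξ i = r then (1 : ℝ) else 0)) ≤
      Real.exp (-(e ^ 2 * D / 4)) := by
  have h1 : ∀ i : V, ∑ a, uni V 2 i a = 1 := uni_sum V (by norm_num)
  have h := pw_tail (uni V 2) (uni_nonneg V 2) h1
    (fun ξ : V → Fin 2 => ∑ i ∈ S, (if ξ i = r then (1 : ℝ) else 0)) 0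
    (fun i _ => if i ∈ S then (1 : ℝ) else 0) ?_ (e / 2) ((S.card : ℝ) / 2) D (e * D) (by linarith) ?_ ?_ ?_
  · have h2 : (e / 2) ^ 2 * D - e / 2 * (e * D) = -(e ^ 2 * D / 4) := by ring
    rwa [h2] at h
  · intro ξ i a
    rw [← Finset.sum_sub_distrib]
    by_cases hi : i ∈ S
    · rw [Finset.sum_eq_single i (fun j _ hj => by simp [Function.update_of_ne hj])
        (fun h => absurd hi h), if_pos hi]
      split_ifs <;> norm_num
    · rw [Finset.sum_eq_zero, if_neg hi, abs_zero]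
      intro j hj
      have hji : j ≠ i := fun h => hi (h ▸ hj)
      simp [Function.update_of_ne hji]
  · intro i _
    split_ifs <;> linarith
  · rw [bis2_mean]
  · have h3 : ∀ i : V, ∑ a, uni V 2 i a * (if i ∈ S then (1 : ℝ) else 0) ^ 2 =
        if i ∈ S then (1 : ℝ) else 0 := by
      intro i
      rw [← Finset.sum_mul, h1, one_mul]
      split_ifs <;> norm_num
    simp only [h3]
    rw [Finset.sum_ite_mem, Finset.univ_inter, Finset.sum_const, nsmul_eq_mul, mul_one]
    exact hS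

theorem bisect2 (η : ℝ) (hη : 0 < η) :
    ∃ D0 : ℕ, ∀ D : ℕ, D0 ≤ D → ∀ (V : Type) [Fintype V] [LinearOrder V] (F : Finset (Sym2 V)),
      (∀ v, (nb F v).card ≤ D) → ∃ A : Finset V, ∀ v,
        ((nb F v ∩ A).card : ℝ) ≤ (nb F v).card / 2 + η * D ∧
        ((nb F v \ A).card : ℝ) ≤ (nb F v).card / 2 + η * D := by
  have he0 : 0 < min η 2 := lt_min hη (by norm_num)
  have he2 : min η 2 ≤ 2 := min_le_right _ _
  have he1 : min η 2 ≤ η := min_le_left _ _
  generalize min η 2 = e at he0 he1 he2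
  obtain ⟨D0, h12, hD0⟩ := bis_num (e ^ 2 / 24) (by positivity)
  refine ⟨D0, fun D hD V _ _ F hF => ?_⟩
  have hD12 : (12 : ℝ) ≤ D := by exact_mod_cast h12.trans hD
  have hFR : ∀ v, ((nb F v).card : ℝ) ≤ D := fun v => by exact_mod_cast hF v
  have hlog := hD0 D hD
  obtain ⟨ξ, hξ⟩ := lll_vars (J := V × Fin 2) (uni V 2) (uni_nonneg V 2)
    (uni_sum V (by norm_num))
    (fun j ξ => ((nb F j.1).card : ℝ) / 2 + e * D ≤ ∑ i ∈ nb F j.1, (if ξ i = j.2 then (1 : ℝ) else 0))
    (fun j => nb F j.1) (fun j ξ ξ' h hB => by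
      have h2 : ∑ i ∈ nb F j.1, (if ξ' i = j.2 then (1 : ℝ) else 0) =
          ∑ i ∈ nb F j.1, (if ξ i = j.2 then (1 : ℝ) else 0) :=
        Finset.sum_congr rfl fun i hi => by rw [h i hi]
      rwa [h2]) ((D : ℝ) ^ 2) (2 * (D : ℝ) ^ 3) (Real.exp (-(6 * Real.log D)))
    (fun j => (hFR j.1).trans (by nlinarith)) (fun i => by
      have h2 : (univ.filter fun j : V × Fin 2 => i ∈ nb F j.1) = nb F i ×ˢ univ := by
        ext j
        simp only [Finset.mem_filter, Finset.mem_univ, true_and, Finset.mem_product, and_true]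
        exact mem_nb_comm
      rw [h2, Finset.card_product, Finset.card_univ, Fintype.card_fin]
      push_cast
      have h3 := hFR i
      have h4 : (D : ℝ) ≤ D ^ 3 := by nlinarith [sq_nonneg (D : ℝ)]
      linarith) (by positivity) (by positivity) (Real.exp_pos _).le
    (fun j => (bis2_tail _ _ e D he0.le he2 (hFR j.1)).trans
      (Real.exp_le_exp.2 (by linarith))) (lll_num D hD12)
  have hb : ∀ v (r : Fin 2), (((nb F v).filter fun i => ξ i = r).card : ℝ) ≤
      ((nb F v).card : ℝ) / 2 + η * D := by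
    intro v r
    have h2 := not_le.1 (hξ (v, r))
    rw [Finset.sum_boole] at h2
    have h3 : e * D ≤ η * D := mul_le_mul_of_nonneg_right he1 (by linarith)
    linarith
  refine ⟨univ.filter fun i => ξ i = 0, fun v => ⟨?_, ?_⟩⟩
  · have h2 : nb F v ∩ (univ.filter fun i => ξ i = 0) = (nb F v).filter fun i => ξ i = 0 := by
      ext i
      simp
    rw [h2]
    exact hb v 0
  · have h2 : nb F v \ (univ.filter fun i => ξ i = 0) = (nb F v).filter fun i => ξ i = 1 := by
      ext i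
      simp only [Finset.mem_sdiff, Finset.mem_filter, Finset.mem_univ, true_and]
      have h3 : ∀ a : Fin 2, ¬ a = 0 ↔ a = 1 := by decide
      rw [h3]
    rw [h2]
    exact hb v 1

end Pool.Agent.Lib.MP_9087e4_co.Mx
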