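import Mathlib
import Pool.Agent.Lib.MP_9087e4_co.Mx.Defs2

set_option autoImplicit false

namespace Pool.Agent.Lib.MP_9087e4_co.Mx

open Finset Polynomial Pool.Agent.Lib.MP_f8e628_co

theorem lawS_nonneg {ι α : Type} [DecidableEq α] (S : ι → Finset α) (m : ℕ) (i : ι) (a : α) :
    0 ≤ lawS S m i a := by
  unfold lawS
  split_ifs <;> positivity

theorem game_sum {ι α : Type} [Fintype α] [DecidableEq α] (S : ι → Finset α) (m : ℕ) (i : ι)
    (f : α → ℝ) : ∑ a, lawS S m i a * f a = (m : ℝ)⁻¹ * ∑ a ∈ S i, f a := by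
  simp only [lawS, ite_mul, zero_mul]
  rw [← Finset.sum_filter, Finset.filter_mem_eq_inter, Finset.univ_inter, Finset.mul_sum]

theorem lawS_sum {ι α : Type} [Fintype α] [DecidableEq α] (S : ι → Finset α) {m : ℕ} (hm : 0 < m)
    (hS : ∀ i, (S i).card = m) (i : ι) : ∑ a, lawS S m i a = 1 := by
  have h := game_sum S m i fun _ => 1
  simp only [mul_one, Finset.sum_const, hS, nsmul_eq_mul] at h
  rw [h, inv_mul_cancel₀ (Nat.cast_ne_zero.2 hm.ne')]

theorem game_split {ι α : Type} [Fintype ι] [DecidableEq ι] [Fintype α] (μ : ι → α → ℝ) (i : ι)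
    (F : (ι → α) → ℝ) : ∑ ξ, pw μ ξ * F ξ = ∑ η : {j // j ≠ i} → α,
      (∏ j : {j // j ≠ i}, μ j (η j)) * ∑ a, μ i a * F ((Equiv.funSplitAt i α).symm (a, η)) := by
  rw [← (Equiv.funSplitAt i α).symm.sum_comp, Fintype.sum_prod_type_right]
  refine Finset.sum_congr rfl fun η _ => ?_
  rw [Finset.mul_sum]
  refine Finset.sum_congr rfl fun a _ => ?_
  have h : pw μ ((Equiv.funSplitAt i α).symm (a, η)) = μ i a * ∏ j : {j // j ≠ i}, μ j (η j) := by
    unfold pw
    rw [Fintype.prod_eq_mul_prod_subtype_ne _ i]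
    congr 1
    · simp
    · exact Finset.prod_congr rfl fun j _ => by simp [j.2]
  rw [h]
  ring

theorem game_law {ι α : Type} [Fintype ι] [DecidableEq ι] [Fintype α] {μ μ' : ι → α → ℝ} (i : ι)
    (h : ∑ a, μ i a = 1) (h' : ∀ j, j ≠ i → μ' j = μ j) (F : (ι → α) → ℝ) :
    ∑ ξ, pw μ' ξ * F ξ = ∑ ξ, pw μ ξ * ∑ a, μ' i a * F (Function.update ξ i a) := by
  rw [game_split μ' i, game_split μ i]
  refine Finset.sum_congr rfl fun η _ => ?_
  have h1 : ∀ a b, Function.update ((Equiv.funSplitAt i α).symm (b, η)) i a =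
      (Equiv.funSplitAt i α).symm (a, η) := fun a b => by
    funext j
    by_cases hj : j = i
    · subst hj
      simp
    · simp [hj]
  simp only [h1]
  rw [← Finset.sum_mul, h, one_mul]
  congr 1
  exact Finset.prod_congr rfl fun j _ => by rw [h' j j.2]

/-- an equilibrium of a potential game -/
theorem game {ι α : Type} [Fintype ι] [DecidableEq ι] [Fintype α] [DecidableEq α]
    (U : ι → Finset α) (m : ℕ) (hm : 0 < m) (hU : ∀ i, m ≤ (U i).card) (ψ : (ι → α) → ℝ)
    (co : ι → α → (ι → α) → ℝ) (h1 : ∀ i a ξ b, co i a (Function.update ξ i b) = co i a ξ)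
    (h2 : ∀ i a a' ξ, ψ (Function.update ξ i a) + co i a ξ =
      ψ (Function.update ξ i a') + co i a' ξ) :
    ∃ S : ι → Finset α, (∀ i, S i ⊆ U i ∧ (S i).card = m) ∧ ∀ i, ∀ r ∈ S i, ∀ r' ∈ U i,
      r' ∉ S i → ∑ ξ, pw (lawS S m) ξ * co i r ξ ≤ ∑ ξ, pw (lawS S m) ξ * co i r' ξ := by
  obtain ⟨S, hS, hmax⟩ := Finset.exists_max_image
    (Fintype.piFinset fun i => (U i).powersetCard m) (fun S => ∑ ξ, pw (lawS S m) ξ * ψ ξ)
    (Fintype.piFinset_nonempty.2 fun i => Finset.powersetCard_nonempty.2 (hU i))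
  have hS' : ∀ i, S i ⊆ U i ∧ (S i).card = m := fun i =>
    Finset.mem_powersetCard.1 (Fintype.mem_piFinset.1 hS i)
  refine ⟨S, hS', fun i r hr r' hr' hn => ?_⟩
  have hn' : r' ∉ (S i).erase r := fun h => hn (Finset.mem_of_mem_erase h)
  have h3 := hmax (Function.update S i (insert r' ((S i).erase r))) (Fintype.mem_piFinset.2
    fun j => by
      by_cases hj : j = i
      · subst hj
        rw [Function.update_self, Finset.mem_powersetCard, Finset.card_insert_of_notMem hn',
          Finset.card_erase_add_one hr]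
        exact ⟨Finset.insert_subset hr' ((Finset.erase_subset _ _).trans (hS' j).1), (hS' j).2⟩
      · rw [Function.update_of_ne hj]
        exact Fintype.mem_piFinset.1 hS j)
  have h4 := lawS_sum S hm (fun i => (hS' i).2) i
  rw [game_law (μ := lawS S m) i h4 (fun j hj => by
    funext a
    simp only [lawS, Function.update_of_ne hj]), game_law (μ := lawS S m) (μ' := lawS S m) i h4
    (fun _ _ => rfl) ψ, ← sub_nonneg, ← Finset.sum_sub_distrib] at h3
  have h5 : ∀ ξ : ι → α, pw (lawS S m) ξ * ∑ a, lawS S m i a * ψ (Function.update ξ i a) -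
      pw (lawS S m) ξ * ∑ a, lawS (Function.update S i (insert r' ((S i).erase r))) m i a *
        ψ (Function.update ξ i a) =
      (m : ℝ)⁻¹ * (pw (lawS S m) ξ * co i r' ξ - pw (lawS S m) ξ * co i r ξ) := fun ξ => by
    rw [game_sum, game_sum, Function.update_self, Finset.sum_insert hn',
      ← Finset.add_sum_erase _ _ hr]
    linear_combination (pw (lawS S m) ξ * (m : ℝ)⁻¹) * h2 i r r' ξ
  simp only [h5] at h3
  rw [← Finset.mul_sum, Finset.sum_sub_distrib] at h3
  exact sub_nonneg.1 (nonneg_of_mul_nonneg_right h3 (inv_pos.2 (Nat.cast_pos.2 hm)) |> fun h => h)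

end Pool.Agent.Lib.MP_9087e4_co.Mx
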