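import Mathlib
import Pool.Agent.Lib.MP_9087e4_co.Mx.Defs2

set_option autoImplicit false

namespace Pool.Agent.Lib.MP_9087e4_co.Mx

open Finset Polynomial Pool.Agent.Lib.MP_f8e628_co

theorem prod_ge {ι : Type} (s : Finset ι) (p : ι → ℝ) (h0 : ∀ i ∈ s, 0 ≤ p i)
    (h1 : ∀ i ∈ s, p i ≤ 1) :
    Real.exp (-∑ i ∈ s, p i) - ∑ i ∈ s, p i ^ 2 ≤ ∏ i ∈ s, (1 - p i) := by
  classical
  induction s using Finset.induction_on with
  | empty => simp
  | insert a s ha ih =>
    have ih' := ih (fun i hi => h0 i (Finset.mem_insert_of_mem hi))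
      fun i hi => h1 i (Finset.mem_insert_of_mem hi)
    have a0 := h0 a (Finset.mem_insert_self _ _)
    have a1 := h1 a (Finset.mem_insert_self _ _)
    have e1 := exp_neg_le_quad a0
    have e2 : Real.exp (-∑ i ∈ s, p i) ≤ 1 := Real.exp_le_one_iff.2
      (neg_nonpos.2 (Finset.sum_nonneg fun i hi => h0 i (Finset.mem_insert_of_mem hi)))
    have e3 := Real.exp_pos (-∑ i ∈ s, p i)
    have e4 : 0 ≤ ∑ i ∈ s, p i ^ 2 := Finset.sum_nonneg fun i _ => sq_nonneg _
    rw [Finset.sum_insert ha, Finset.sum_insert ha, Finset.prod_insert ha, neg_add, Real.exp_add]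
    nlinarith [mul_le_mul_of_nonneg_left ih' (sub_nonneg.2 a1), mul_nonneg a0 e4,
      mul_le_mul_of_nonneg_right e1 e3.le, mul_le_mul_of_nonneg_left e2 (sq_nonneg (p a)),
      sq_nonneg (p a)]

end Pool.Agent.Lib.MP_9087e4_co.Mx
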