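import Mathlib
import Pool.Agent.Lib.MP_9087e4_co.Mx.PGe

set_option autoImplicit false

namespace Pool.Agent.Lib.MP_9087e4_co.Mx

open Finset Polynomial Pool.Agent.Lib.MP_f8e628_co

theorem mean2i_pow {ι : Type} [Fintype ι] [DecidableEq ι] {L : ℕ} (ν : ι → Fin L → ℝ)
    (h1 : ∀ i, ∑ a, ν i a = 1) (r : Fin L) (N : Finset ι) (u : ℝ) :
    ∑ ξ, pw ν ξ * (1 - u) ^ (N.filter fun i => ξ i = r).card = ∏ i ∈ N, (1 - u * ν i r) := by
  have e : ∀ ξ : ι → Fin L, (1 - u) ^ (N.filter fun i => ξ i = r).card =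
      ∏ i, if i ∈ N then (if ξ i = r then 1 - u else 1) else 1 := fun ξ => by
    rw [prod_ite_mem, univ_inter, prod_ite, prod_const, prod_const_one, mul_one]
  simp only [e]
  rw [pw_sum_prod ν fun i a => if i ∈ N then (if a = r then 1 - u else 1) else 1,
    ← univ_inter N, ← prod_ite_mem, univ_inter]
  refine prod_congr rfl fun i _ => ?_
  split_ifs
  · have e2 : ∀ a, ν i a * (if a = r then 1 - u else 1) =
        ν i a - if a = r then u * ν i r else 0 := fun a => by
      split_ifs with h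
      · rw [h]
        ring
      · ring
    simp only [e2, sum_sub_distrib, h1, sum_ite_eq', mem_univ, if_true]
  · simpa only [mul_one] using h1 i

theorem mean_inv2 {ι : Type} [Fintype ι] [DecidableEq ι] {L : ℕ} (ν : ι → Fin L → ℝ)
    (h0 : ∀ i a, 0 ≤ ν i a) (h1 : ∀ i, ∑ a, ν i a = 1) (m : ℝ) (hm0 : 0 < m)
    (hm : ∀ i a, ν i a ≤ 1 / m) (K : ℕ) (hK : 0 < K) (hKL : K ≤ L) (N : Finset ι) (n : ℝ)
    (hN : (N.card : ℝ) ≤ n) :
    K * hh (n / K) - n / m ≤ ∑ r ∈ univ.filter fun r : Fin L => (r : ℕ) < K,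
      ∑ ξ, pw ν ξ * (1 / (((N.filter fun i => ξ i = r).card : ℝ) + 1)) := by
  have hK0 : (0 : ℝ) < K := Nat.cast_pos.2 hK
  set S : Finset (Fin L) := univ.filter fun r : Fin L => (r : ℕ) < K with hS
  have hc : S.card = K := by rw [hS, Fin.card_filter_val_lt, min_eq_right hKL]
  have hμ : ∑ r ∈ S, ∑ i ∈ N, ν i r ≤ n := by
    rw [sum_comm]
    refine (sum_le_card_nsmul _ _ 1 fun i _ => ?_).trans (by simpa using hN)
    exact (sum_le_sum_of_subset_of_nonneg (subset_univ _) fun a _ _ => h0 i a).trans (h1 i).le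
  have e1 : ∀ T : ℕ, 1 / ((T : ℝ) + 1) = ∫ u in (0 : ℝ)..1, (1 - u) ^ T := fun T => by
    rw [intervalIntegral.integral_comp_sub_left (fun x => x ^ T) 1]
    simp
  have e2 : K * hh (n / K) - n / m =
      ∫ u in (0 : ℝ)..1, (K * Real.exp (-(n / K * u)) - n / m) := by
    rw [intervalIntegral.integral_sub (Continuous.intervalIntegrable (by fun_prop) _ _)
      (Continuous.intervalIntegrable (by fun_prop) _ _), intervalIntegral.integral_const_mul, hh]
    simp
  have e3 : ∀ r : Fin L, ∑ ξ, pw ν ξ * (1 / (((N.filter fun i => ξ i = r).card : ℝ) + 1)) =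
      ∫ u in (0 : ℝ)..1, ∏ i ∈ N, (1 - u * ν i r) := fun r => by
    simp only [e1, ← intervalIntegral.integral_const_mul]
    rw [← intervalIntegral.integral_finsetSum fun ξ _ => Continuous.intervalIntegrable
      (by fun_prop) _ _]
    simp only [mean2i_pow ν h1]
  simp only [e3]
  rw [← intervalIntegral.integral_finsetSum fun r _ => Continuous.intervalIntegrable
    (by fun_prop) _ _, e2]
  refine intervalIntegral.integral_mono_on zero_le_one (Continuous.intervalIntegrable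
    (by fun_prop) _ _) (Continuous.intervalIntegrable (by fun_prop) _ _) fun u hu => ?_
  have hE := Real.exp_pos (-(n / K * u))
  refine le_trans ?_ (sum_le_sum (f := fun r => Real.exp (-(n / K * u)) *
    (1 + n / K * u - u * ∑ i ∈ N, ν i r) - (∑ i ∈ N, ν i r) / m) fun r _ => ?_)
  · rw [sum_sub_distrib, ← mul_sum, sum_sub_distrib, ← mul_sum, ← sum_div, sum_const, hc,
      nsmul_eq_mul, mul_add, ← mul_assoc, mul_div_cancel₀ _ hK0.ne', mul_comm (K : ℝ)]
    refine sub_le_sub (mul_le_mul_of_nonneg_left ?_ hE.le) (div_le_div_of_nonneg_right hμ hm0.le)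
    nlinarith [mul_le_mul_of_nonneg_left hμ hu.1]
  have hν : ∀ i, ν i r ≤ 1 := fun i =>
    (single_le_sum (fun a _ => h0 i a) (mem_univ r)).trans (h1 i).le
  refine le_trans (sub_le_sub ?_ ?_) (prod_ge N (fun i => u * ν i r)
    (fun i _ => mul_nonneg hu.1 (h0 i r)) fun i _ => mul_le_one₀ hu.2 (h0 i r) (hν i))
  · rw [← mul_sum, show -(u * ∑ i ∈ N, ν i r) = -(n / K * u) + (n / K * u - u * ∑ i ∈ N, ν i r) by
      ring, Real.exp_add]
    exact mul_le_mul_of_nonneg_left (by
      linarith [Real.add_one_le_exp (n / K * u - u * ∑ i ∈ N, ν i r)]) hE.le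
  · rw [sum_div]
    refine sum_le_sum fun i _ => ?_
    have a1 := mul_le_of_le_one_left (h0 i r) hu.2
    rw [sq, div_eq_mul_one_div]
    exact mul_le_mul a1 (a1.trans (hm i r)) (mul_nonneg hu.1 (h0 i r)) (h0 i r)

end Pool.Agent.Lib.MP_9087e4_co.Mx
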