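import Mathlib
import Pool.Agent.Lib.MP_9087e4_co.Mx.PGe

set_option autoImplicit false

namespace Pool.Agent.Lib.MP_9087e4_co.Mx

open Finset Polynomial Pool.Agent.Lib.MP_f8e628_co

theorem m2s_card {ι : Type} [Fintype ι] [DecidableEq ι] {L : ℕ} (N : Finset ι) (ξ : ι → Fin L) :
    ((N.image ξ).card : ℝ) =
      ∑ r : Fin L, (1 - ∏ i, (if i ∈ N ∧ ξ i = r then (0 : ℝ) else 1)) := by
  have h1 : ∀ r : Fin L, (1 - ∏ i, (if i ∈ N ∧ ξ i = r then (0 : ℝ) else 1)) =
      if r ∈ N.image ξ then 1 else 0 := by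
    intro r
    by_cases hr : r ∈ N.image ξ
    · obtain ⟨i, hi, hir⟩ := Finset.mem_image.mp hr
      rw [if_pos hr, Finset.prod_eq_zero (Finset.mem_univ i) (by simp [hi, hir])]
      ring
    · rw [if_neg hr, Finset.prod_eq_one]
      · ring
      · intro i _
        rw [if_neg]
        rintro ⟨hi, hir⟩
        exact hr (Finset.mem_image.mpr ⟨i, hi, hir⟩)
  simp only [h1]
  rw [Finset.sum_boole]
  congr 2
  ext r
  simp

theorem m2s_prod {ι : Type} [Fintype ι] [DecidableEq ι] {L : ℕ} (ν : ι → Fin L → ℝ)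
    (h1 : ∀ i, ∑ a, ν i a = 1) (N : Finset ι) (r : Fin L) :
    ∑ ξ : ι → Fin L, pw ν ξ * ∏ i, (if i ∈ N ∧ ξ i = r then (0 : ℝ) else 1) =
      ∏ i ∈ N, (1 - ν i r) := by
  rw [pw_sum_prod ν (fun i a => if i ∈ N ∧ a = r then (0 : ℝ) else 1)]
  have h2 : ∀ i : ι, ∑ a : Fin L, ν i a * (if i ∈ N ∧ a = r then (0 : ℝ) else 1) =
      if i ∈ N then 1 - ν i r else 1 := by
    intro i
    by_cases hi : i ∈ N
    · rw [if_pos hi]
      have h3 : ∀ a : Fin L, ν i a * (if i ∈ N ∧ a = r then (0 : ℝ) else 1) =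
          ν i a - (if a = r then ν i r else 0) := by
        intro a
        by_cases ha : a = r
        · simp [hi, ha]
        · simp [ha]
      simp only [h3]
      rw [Finset.sum_sub_distrib, h1]
      simp
    · rw [if_neg hi]
      simp only [hi, false_and, if_false, mul_one]
      exact h1 i
  simp only [h2]
  rw [Finset.prod_ite, Finset.prod_const_one, mul_one]
  congr 1
  ext i
  simp

theorem m2s_tan (y y0 : ℝ) :
    1 - Real.exp (-y) ≤ 1 - Real.exp (-y0) - Real.exp (-y0) * y0 + Real.exp (-y0) * y := by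
  have h1 := Real.add_one_le_exp (y0 - y)
  have h2 : Real.exp (-y) = Real.exp (-y0) * Real.exp (y0 - y) := by
    rw [← Real.exp_add]
    congr 1
    ring
  have h3 := mul_le_mul_of_nonneg_left h1 (Real.exp_pos (-y0)).le
  linarith

theorem mean_seen2 {ι : Type} [Fintype ι] [DecidableEq ι] {L : ℕ} (ν : ι → Fin L → ℝ)
    (h0 : ∀ i a, 0 ≤ ν i a) (h1 : ∀ i, ∑ a, ν i a = 1) (m : ℝ) (hm : ∀ i a, ν i a ≤ 1 / m)
    (K : ℕ) (hK : 0 < K) (N : Finset ι) (hs : ∀ i ∈ N, ∀ a, ν i a ≠ 0 → (a : ℕ) < K) :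
    ∑ ξ, pw ν ξ * ((N.image ξ).card : ℝ) ≤ gg K N.card + N.card / m := by
  have e1 : ∑ ξ, pw ν ξ * ((N.image ξ).card : ℝ) =
      ∑ r : Fin L, (1 - ∏ i ∈ N, (1 - ν i r)) := by
    simp only [m2s_card N, Finset.mul_sum]
    rw [Finset.sum_comm]
    refine Finset.sum_congr rfl fun r _ => ?_
    simp only [mul_sub, mul_one]
    rw [Finset.sum_sub_distrib, pw_sum_one h1, m2s_prod ν h1 N r]
  have hK0 : (0 : ℝ) < K := Nat.cast_pos.2 hK
  set y0 : ℝ := N.card / K with hy0
  set e : ℝ := Real.exp (-y0) with he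
  have hc : 0 ≤ 1 - e - e * y0 := by
    have := m2s_tan 0 y0
    simp only [neg_zero, Real.exp_zero, mul_zero] at this
    linarith
  have hle : ∀ i a, ν i a ≤ 1 := fun i a =>
    (Finset.single_le_sum (fun b _ => h0 i b) (Finset.mem_univ a)).trans (h1 i).le
  have hr : ∀ r : Fin L, 1 - ∏ i ∈ N, (1 - ν i r) ≤
      (if (r : ℕ) < K then 1 - e - e * y0 else 0) + (e + 1 / m) * ∑ i ∈ N, ν i r := by
    intro r
    by_cases h : (r : ℕ) < K
    · rw [if_pos h]
      have p1 := prod_ge N (fun i => ν i r) (fun i _ => h0 i r) fun i _ => hle i r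
      have p2 : ∑ i ∈ N, ν i r ^ 2 ≤ 1 / m * ∑ i ∈ N, ν i r := by
        rw [Finset.mul_sum]
        exact Finset.sum_le_sum fun i _ => by
          rw [sq]
          exact mul_le_mul_of_nonneg_right (hm i r) (h0 i r)
      have p3 := m2s_tan (∑ i ∈ N, ν i r) y0
      rw [add_mul]
      linarith
    · have hz : ∀ i ∈ N, ν i r = 0 := fun i hi => by_contra fun hn => h (hs i hi r hn)
      rw [if_neg h, Finset.sum_eq_zero hz, Finset.prod_eq_one fun i hi => by rw [hz i hi, sub_zero]]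
      simp
  have hcard : ((univ.filter fun r : Fin L => (r : ℕ) < K).card : ℝ) ≤ K := by
    have : (univ.filter fun r : Fin L => (r : ℕ) < K).card ≤ (range K).card :=
      Finset.card_le_card_of_injOn (fun r => (r : ℕ))
        (fun r hr => Finset.mem_coe.2 (Finset.mem_range.2 (Finset.mem_filter.1 hr).2))
        fun a _ b _ h => Fin.ext h
    rw [Finset.card_range] at this
    exact_mod_cast this
  have hsum : ∑ r : Fin L, ∑ i ∈ N, ν i r = N.card := by
    rw [Finset.sum_comm]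
    simp [h1]
  rw [e1]
  refine (Finset.sum_le_sum fun r _ => hr r).trans ?_
  rw [Finset.sum_add_distrib, ← Finset.mul_sum, hsum, ← Finset.sum_filter, Finset.sum_const,
    nsmul_eq_mul]
  have q1 := mul_le_mul_of_nonneg_right hcard hc
  have q2 : (K : ℝ) * y0 = N.card := by
    rw [hy0]
    field_simp
  have q3 : gg K N.card = K * (1 - e) := rfl
  have q4 : (N.card : ℝ) / m = 1 / m * N.card := by ring
  have q5 : (K : ℝ) * (e * y0) = e * N.card := by rw [← q2]; ring
  rw [q3, q4, add_mul]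
  rw [mul_sub (K : ℝ), q5] at q1
  linarith

end Pool.Agent.Lib.MP_9087e4_co.Mx
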