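import Mathlib
import Pool.Agent.Lib.MP_9087e4_co.Mx.Defs2

set_option autoImplicit false

namespace Pool.Agent.Lib.MP_9087e4_co.Mx

open Finset Polynomial Pool.Agent.Lib.MP_f8e628_co

theorem pal_gg_mono {K n n' : ℝ} (hK : 0 ≤ K) (h : n ≤ n') : gg K n ≤ gg K n' := by
  unfold gg
  refine mul_le_mul_of_nonneg_left ?_ hK
  have h1 : n / K ≤ n' / K := div_le_div_of_nonneg_right h hK
  have h2 : Real.exp (-(n' / K)) ≤ Real.exp (-(n / K)) := Real.exp_le_exp.2 (by linarith)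
  linarith

theorem pal_gg_le {K n : ℝ} (hK : 0 ≤ K) : gg K n ≤ K := by
  unfold gg
  have h := Real.exp_pos (-(n / K))
  nlinarith

theorem pal_gg_ge {K n : ℝ} (hK : 0 < K) (hn : 0 ≤ n) : n - n ^ 2 / (2 * K) ≤ gg K n := by
  unfold gg
  have h := exp_neg_le_quad (x := n / K) (div_nonneg hn hK.le)
  have e : n - n ^ 2 / (2 * K) = K * (1 - (1 - n / K + (n / K) ^ 2 / 2)) := by
    field_simp
    ring
  rw [e]
  exact mul_le_mul_of_nonneg_left (by linarith) hK.le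

theorem pal_gg_succ {K n : ℝ} (hK : 0 ≤ K) (hn : 0 ≤ n) : gg (K + 1) n ≤ gg K n + 1 := by
  unfold gg
  have h0 := Real.exp_pos (-(n / (K + 1)))
  rcases hK.eq_or_lt with h | h
  · subst h
    nlinarith
  · have h1 : n / (K + 1) ≤ n / K := div_le_div_of_nonneg_left hn h (by linarith)
    have h2 : Real.exp (-(n / K)) ≤ Real.exp (-(n / (K + 1))) := Real.exp_le_exp.2 (by linarith)
    nlinarith [mul_le_mul_of_nonneg_left h2 hK]

theorem pal_mul_hh (μ : ℝ) : μ * hh μ = 1 - Real.exp (-μ) := by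
  unfold hh
  rw [← intervalIntegral.integral_const_mul]
  have hd : ∀ u ∈ Set.uIcc (0 : ℝ) 1,
      HasDerivAt (fun u : ℝ => -Real.exp (-(μ * u))) (μ * Real.exp (-(μ * u))) u := by
    intro u _
    have h1 : HasDerivAt (fun u : ℝ => -(μ * u)) (-μ) u := by
      simpa using ((hasDerivAt_id u).const_mul μ).fun_neg
    have h2 := h1.exp.fun_neg
    have e : μ * Real.exp (-(μ * u)) = -(Real.exp (-(μ * u)) * -μ) := by ring
    rw [e]
    exact h2
  rw [intervalIntegral.integral_eq_sub_of_hasDerivAt hd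
    (Continuous.intervalIntegrable (by fun_prop) _ _)]
  simp
  ring

theorem pal_hh_anti {μ ν : ℝ} (h : μ ≤ ν) : hh ν ≤ hh μ := by
  unfold hh
  refine intervalIntegral.integral_mono_on zero_le_one
    (Continuous.intervalIntegrable (by fun_prop) _ _)
    (Continuous.intervalIntegrable (by fun_prop) _ _) ?_
  intro u hu
  refine Real.exp_le_exp.2 ?_
  have := mul_le_mul_of_nonneg_right h hu.1
  linarith

theorem pal_hh_gg {K n : ℝ} (hK : 0 < K) : n * hh (n / K) = gg K n := by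
  unfold gg
  rw [← pal_mul_hh (n / K)]
  field_simp

theorem pal_exists {ρ n : ℝ} (hρ : 0 < ρ) (h : ρ < n) : ∃ K : ℕ, ρ ≤ gg K n := by
  have hn : 0 < n := hρ.trans h
  have hd : 0 < n - ρ := sub_pos.2 h
  obtain ⟨K, hK⟩ := exists_nat_ge (n ^ 2 / (2 * (n - ρ)))
  have hp : 0 < n ^ 2 / (2 * (n - ρ)) := by positivity
  have hK0 : (0 : ℝ) < K := hp.trans_le hK
  refine ⟨K, le_trans ?_ (pal_gg_ge hK0 hn.le)⟩
  rw [div_le_iff₀ (by positivity)] at hK
  have h2 : n ^ 2 / (2 * K) ≤ n - ρ := by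
    rw [div_le_iff₀ (by positivity)]
    nlinarith
  linarith

theorem pal_k {ρ n0 : ℝ} (hρ : 0 < ρ) (h0 : ρ < n0) : ∃ k : ℝ → ℕ,
    (∀ n, n0 ≤ n → ρ ≤ gg (k n) n) ∧ (∀ n, n0 ≤ n → gg (k n) n ≤ ρ + 1) ∧
    (∀ n n', n0 ≤ n → n ≤ n' → k n' ≤ k n) := by
  classical
  have hne : ∀ n, n0 ≤ n → {K : ℕ | ρ ≤ gg K n}.Nonempty := fun n hn =>
    pal_exists hρ (h0.trans_le hn)
  refine ⟨fun n => sInf {K : ℕ | ρ ≤ gg K n}, fun n hn => Nat.sInf_mem (hne n hn), ?_, ?_⟩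
  · intro n hn
    have hm : ρ ≤ gg ((sInf {K : ℕ | ρ ≤ gg K n} : ℕ) : ℝ) n := Nat.sInf_mem (hne n hn)
    show gg ((sInf {K : ℕ | ρ ≤ gg K n} : ℕ) : ℝ) n ≤ ρ + 1
    rcases hj : sInf {K : ℕ | ρ ≤ gg K n} with _ | j
    · have := pal_gg_le (K := ((0 : ℕ) : ℝ)) (n := n) (by simp)
      simp only [Nat.cast_zero] at this ⊢
      linarith
    · have hlt : j < sInf {K : ℕ | ρ ≤ gg K n} := by omega
      have hnot : ¬ ρ ≤ gg (j : ℝ) n := Nat.notMem_of_lt_sInf hlt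
      have hs := pal_gg_succ (K := (j : ℝ)) (n := n) (Nat.cast_nonneg j) (by linarith)
      push_cast
      linarith [not_le.1 hnot]
  · intro n n' hn hnn
    refine Nat.sInf_le ?_
    have hm : ρ ≤ gg ((sInf {K : ℕ | ρ ≤ gg K n} : ℕ) : ℝ) n := Nat.sInf_mem (hne n hn)
    exact hm.trans (pal_gg_mono (Nat.cast_nonneg _) hnn)

theorem palettes {V : Type} [Fintype V] [DecidableEq V] (P : Finset (V × V)) (c θ ρ : ℝ) (D : ℕ)
    (hc : 0 < c) (hθ : 0 < θ) (hθ1 : θ ≤ c ^ 2) (hθ2 : θ ≤ 1) (hD : 0 < D) (h1 : c * D ≤ ρ)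
    (h2 : ρ ≤ D) (hL : ∀ x, (nL P x).card ≤ D) (hR : ∀ w, (nR P w).card ≤ D) (hH : HarmP P ρ) :
    ∃ Kx Kw : V → ℕ, (∀ v, ρ ≤ Kw v) ∧ (∀ p ∈ P, Kw p.2 ≤ Kx p.1) ∧
      (∀ x, 0 < Kx x ∧ gg (Kx x) (nL P x).card ≤ ρ + 1) ∧
      ∀ p ∈ P, ((nR P p.2).card : ℝ) * (1 - hh ((nL P p.1).card / Kw p.2)) ≤ ρ := by
  have hD' : (0 : ℝ) < D := by exact_mod_cast hD
  have hρ : 0 < ρ := (mul_pos hc hD').trans_le h1
  have hθD : 0 < θ * D := mul_pos hθ hD'
  obtain ⟨n0, hn0⟩ : ∃ n0 : ℝ, n0 = ρ + θ * D := ⟨_, rfl⟩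
  have h0 : ρ < n0 := by linarith
  obtain ⟨k, hk1, hk2, hk3⟩ := pal_k hρ h0
  have hk4 : ∀ n, n0 ≤ n → ρ ≤ k n := fun n hn =>
    (hk1 n hn).trans (pal_gg_le (Nat.cast_nonneg _))
  obtain ⟨S, hS⟩ : ∃ S : V → ℕ, S = fun w => (nR P w).sup fun x => (nL P x).card := ⟨_, rfl⟩
  have hS1 : ∀ p ∈ P, ((nL P p.1).card : ℝ) ≤ S p.2 := by
    intro p hp
    have : (nL P p.1).card ≤ S p.2 := by
      rw [hS]
      exact Finset.le_sup (f := fun x => (nL P x).card) (mem_nR.2 hp)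
    exact_mod_cast this
  refine ⟨fun x => k (max n0 (nL P x).card), fun w => k (max n0 (S w)),
    fun v => hk4 _ (le_max_left _ _), ?_, ?_, ?_⟩
  · intro p hp
    exact hk3 _ _ (le_max_left _ _) (max_le_max le_rfl (hS1 p hp))
  · intro x
    refine ⟨?_, ?_⟩
    · have := hρ.trans_le (hk4 (max n0 (nL P x).card) (le_max_left _ _))
      exact_mod_cast this
    · exact (pal_gg_mono (Nat.cast_nonneg _) (le_max_right _ _)).trans
        (hk2 _ (le_max_left _ _))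
  · intro p hp
    obtain ⟨Ds, hDs⟩ : ∃ Ds : ℝ, Ds = max n0 (S p.2) := ⟨_, rfl⟩
    show ((nR P p.2).card : ℝ) * (1 - hh ((nL P p.1).card / (k (max n0 (S p.2)) : ℕ))) ≤ ρ
    rw [← hDs]
    have hDn : n0 ≤ Ds := hDs ▸ le_max_left _ _
    have hDp : 0 < Ds := (hρ.trans h0).trans_le hDn
    have hK : (0 : ℝ) < k Ds := hρ.trans_le (hk4 Ds hDn)
    have hx : ((nL P p.1).card : ℝ) ≤ Ds := (hS1 p hp).trans (hDs ▸ le_max_right _ _)
    have ha : hh (Ds / k Ds) ≤ hh ((nL P p.1).card / k Ds) :=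
      pal_hh_anti (div_le_div_of_nonneg_right hx hK.le)
    have hb : ρ ≤ Ds * hh (Ds / k Ds) := by
      rw [pal_hh_gg hK]
      exact hk1 Ds hDn
    have hw0 : (0 : ℝ) ≤ (nR P p.2).card := Nat.cast_nonneg _
    have hwD : ((nR P p.2).card : ℝ) ≤ D := by exact_mod_cast hR p.2
    have key : ((nR P p.2).card : ℝ) * (Ds - ρ) ≤ ρ * Ds := by
      rcases le_total (S p.2 : ℝ) n0 with hc1 | hc1
      · have e : Ds = ρ + θ * D := by rw [hDs, max_eq_left hc1, hn0]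
        have a1 : ((nR P p.2).card : ℝ) * (θ * D) ≤ D * (θ * D) :=
          mul_le_mul_of_nonneg_right hwD hθD.le
        have a2 : θ * (D * D) ≤ c ^ 2 * (D * D) :=
          mul_le_mul_of_nonneg_right hθ1 (mul_pos hD' hD').le
        have a3 : (c * D) * (c * D) ≤ ρ * ρ :=
          mul_le_mul h1 h1 (mul_pos hc hD').le hρ.le
        have a4 := mul_pos hρ hθD
        rw [e]
        nlinarith
      · have e : Ds = S p.2 := by rw [hDs, max_eq_right hc1]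
        obtain ⟨x', hx', hx2⟩ := Finset.exists_mem_eq_sup (nR P p.2) ⟨p.1, mem_nR.2 hp⟩
          (fun x => (nL P x).card)
        have e2 : Ds = (nL P x').card := by
          rw [e, hS]
          exact_mod_cast hx2
        have a1 := hH (x', p.2) (mem_nR.1 hx')
        simp only at a1
        rw [← e2] at a1
        nlinarith
    refine le_of_mul_le_mul_right ?_ hDp
    have a5 : ρ ≤ Ds * hh ((nL P p.1).card / k Ds) :=
      hb.trans (mul_le_mul_of_nonneg_left ha hDp.le)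
    have a6 := mul_le_mul_of_nonneg_left a5 hw0
    nlinarith

end Pool.Agent.Lib.MP_9087e4_co.Mx
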