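import Mathlib
import Pool.Agent.Lib.MP_9087e4_co.Mx.Defs2

set_option autoImplicit false

namespace Pool.Agent.Lib.MP_9087e4_co.Mx

open Finset Polynomial Pool.Agent.Lib.MP_f8e628_co

variable {V α β : Type} [Fintype V] [DecidableEq V] [DecidableEq α] [DecidableEq β]

theorem pay_nonneg (P : Finset (V × V)) (w : V) (r : α) (ξ : V → α) : 0 ≤ pay P w r ξ :=
  sum_nonneg fun _ _ => sub_nonneg.2 ((div_le_one (by positivity)).2
    (le_add_of_nonneg_left (Nat.cast_nonneg _)))

theorem pay_mono (P : Finset (V × V)) (w : V) {r : α} {r' : β} {ξ : V → α} {ξ' : V → β}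
    (h : ∀ i, i ≠ w → ξ i = r → ξ' i = r') : pay P w r ξ ≤ pay P w r' ξ' := by
  refine sum_le_sum fun x _ => sub_le_sub_left (one_div_le_one_div_of_le (by positivity) ?_) _
  refine add_le_add (Nat.cast_le.2 (card_le_card fun i hi => ?_)) le_rfl
  rw [mem_filter] at hi ⊢
  exact ⟨hi.1, h i (ne_of_mem_erase hi.1) hi.2⟩

omit [Fintype V] in
theorem pot_filter (s : Finset V) (w : V) (a : α) (ξ : V → α) (b : α) :
    ((s.erase w).filter fun i => Function.update ξ w b i = a) =
      (s.erase w).filter fun i => ξ i = a :=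
  filter_congr fun i hi => by rw [Function.update_of_ne (ne_of_mem_erase hi)]

theorem pay_update (P : Finset (V × V)) (w : V) (a : α) (ξ : V → α) (b : α) :
    pay P w a (Function.update ξ w b) = pay P w a ξ :=
  sum_congr rfl fun x _ => by rw [pot_filter]

theorem pay_eq_zero (P : Finset (V × V)) (w : V) {r : α} {ξ : V → α}
    (h : ∀ i, i ≠ w → ξ i ≠ r) : pay P w r ξ = 0 :=
  sum_eq_zero fun x _ => by
    rw [filter_eq_empty_iff.2 fun i hi => h i (ne_of_mem_erase hi)]
    simp

omit [Fintype V] in
theorem pot_step [Fintype α] (H : ℕ → ℝ) (hH : ∀ n, H (n + 1) = H n + 1 / ((n : ℝ) + 1))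
    (s : Finset V) (w : V) (a : α) (ξ : V → α) :
    ∑ r, H (s.filter fun i => Function.update ξ w a i = r).card +
        (if w ∈ s then 1 - 1 / ((((s.erase w).filter fun i => ξ i = a).card : ℝ) + 1) else 0) =
      ∑ r, H ((s.erase w).filter fun i => ξ i = r).card + if w ∈ s then 1 else 0 := by
  split_ifs with hw
  · have e : ∀ r, H (s.filter fun i => Function.update ξ w a i = r).card =
        H ((s.erase w).filter fun i => ξ i = r).card +
          if a = r then 1 / ((((s.erase w).filter fun i => ξ i = a).card : ℝ) + 1) else 0 := by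
      intro r
      conv_lhs => rw [← insert_erase hw, filter_insert, pot_filter, Function.update_self]
      split_ifs with h
      · rw [card_insert_of_notMem fun c => notMem_erase w s (mem_filter.1 c).1, hH, h]
      · rw [add_zero]
    simp only [e, sum_add_distrib, sum_ite_eq, mem_univ, if_true]
    ring
  · conv_lhs => rw [← erase_eq_of_notMem hw]
    simp only [pot_filter]

theorem potential [Fintype α] (P : Finset (V × V)) : ∃ ψ : (V → α) → ℝ, ∀ w a a' ξ,
    ψ (Function.update ξ w a) + pay P w a ξ = ψ (Function.update ξ w a') + pay P w a' ξ := by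
  obtain ⟨H, hH⟩ : ∃ H : ℕ → ℝ, ∀ n, H (n + 1) = H n + 1 / ((n : ℝ) + 1) :=
    ⟨fun n => ∑ j ∈ range n, 1 / ((j : ℝ) + 1), fun n => sum_range_succ _ _⟩
  refine ⟨fun ξ => ∑ x, ∑ r, H ((nL P x).filter fun i => ξ i = r).card, fun w a a' ξ => ?_⟩
  have k : ∀ a, ∑ x, ∑ r, H ((nL P x).filter fun i => Function.update ξ w a i = r).card +
      pay P w a ξ = ∑ x, (∑ r, H (((nL P x).erase w).filter fun i => ξ i = r).card +
        if w ∈ nL P x then 1 else 0) := fun a => by
    rw [pay, nR, sum_filter, ← sum_add_distrib]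
    refine sum_congr rfl fun x _ => ?_
    rw [← pot_step H hH (nL P x) w a ξ]
    simp only [mem_nL]
  exact (k a).trans (k a').symm

end Pool.Agent.Lib.MP_9087e4_co.Mx
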