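import Mathlib
import Pool.Agent.Lib.MP_9087e4_co.Mx.Pal
import Pool.Agent.Lib.MP_9087e4_co.Mx.Game
import Pool.Agent.Lib.MP_9087e4_co.Mx.Pot
import Pool.Agent.Lib.MP_9087e4_co.Mx.Mean2S
import Pool.Agent.Lib.MP_9087e4_co.Mx.Mean2I

set_option autoImplicit false

namespace Pool.Agent.Lib.MP_9087e4_co.Mx

open Finset Polynomial Pool.Agent.Lib.MP_f8e628_co

theorem good_law_aux1 {V : Type} [Fintype V] [DecidableEq V] (P : Finset (V × V)) {L : ℕ}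
    (ν : V → Fin L → ℝ) (h0 : ∀ i a, 0 ≤ ν i a) (h1 : ∀ i, ∑ a, ν i a = 1) (m : ℝ) (hm0 : 0 < m)
    (hm : ∀ i a, ν i a ≤ 1 / m) (K : ℕ) (hK : 0 < K) (hKL : K ≤ L) (w : V) :
    ∑ r ∈ univ.filter fun r : Fin L => (r : ℕ) < K, ∑ ξ, pw ν ξ * pay P w r ξ ≤
      ∑ x ∈ nR P w, (K * (1 - hh ((nL P x).card / K)) + (nL P x).card / m) := by
  have e : ∀ r : Fin L, ∑ ξ, pw ν ξ * pay P w r ξ = ∑ x ∈ nR P w, (1 - ∑ ξ, pw ν ξ *
      (1 / (((((nL P x).erase w).filter fun i => ξ i = r).card : ℝ) + 1))) := fun r => by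
    simp only [pay, mul_sum]
    rw [sum_comm]
    refine sum_congr rfl fun x _ => ?_
    simp only [mul_sub, mul_one, sum_sub_distrib, pw_sum_one h1]
  simp only [e]
  rw [sum_comm]
  refine sum_le_sum fun x _ => ?_
  have := mean_inv2 ν h0 h1 m hm0 hm K hK hKL ((nL P x).erase w) (nL P x).card
    (Nat.cast_le.2 card_erase_le)
  rw [sum_sub_distrib, sum_const, Fin.card_filter_val_lt, min_eq_right hKL, nsmul_eq_mul, mul_one]
  linarith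

theorem good_law_aux2 {ι : Type} (s : Finset ι) (f : ι → ℝ) {ρ : ℝ} (h0 : 0 ≤ ρ)
    (h : ∀ x ∈ s, (s.card : ℝ) * f x ≤ ρ) : ∑ x ∈ s, f x ≤ ρ := by
  rcases s.eq_empty_or_nonempty with rfl | hs
  · simpa using h0
  refine le_of_mul_le_mul_left ?_ (Nat.cast_pos.2 hs.card_pos : (0 : ℝ) < s.card)
  rw [mul_sum, ← nsmul_eq_mul]
  exact sum_le_card_nsmul _ _ _ h

theorem good_law (c η : ℝ) (hc : 0 < c) (hη : 0 < η) :
    ∃ θ : ℝ, 0 < θ ∧ θ ≤ 1 ∧ ∃ D0 : ℕ, ∀ D : ℕ, D0 ≤ D → ∀ ρ : ℝ, c * D ≤ ρ → ρ ≤ D →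
      ∀ (V : Type) [Fintype V] [DecidableEq V] (P : Finset (V × V)),
      (∀ x, (nL P x).card ≤ D) → (∀ w, (nR P w).card ≤ D) → HarmP P ρ →
      ∃ (L : ℕ) (ν : V → Fin L → ℝ), 2 ≤ L ∧ (∀ i a, 0 ≤ ν i a) ∧ (∀ i, ∑ a, ν i a = 1) ∧
        (∀ i a, ν i a ≤ 1 / (θ * D)) ∧
        (∀ x, ∑ ξ, pw ν ξ * (((nL P x).image ξ).card : ℝ) ≤ ρ + η * D) ∧
        ∀ w r, ν w r ≠ 0 → ∑ ξ, pw ν ξ * pay P w r ξ ≤ ρ + η * D := by
  obtain ⟨θ, t0, t1, t2, t3, t4⟩ :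
      ∃ θ : ℝ, 0 < θ ∧ θ ≤ c ^ 2 ∧ θ ≤ 1 ∧ θ ≤ c / 8 ∧ θ ≤ η / 8 :=
    ⟨min (min (c ^ 2) 1) (min (c / 8) (η / 8)), by positivity,
      (min_le_left _ _).trans (min_le_left _ _), (min_le_left _ _).trans (min_le_right _ _),
      (min_le_right _ _).trans (min_le_left _ _), (min_le_right _ _).trans (min_le_right _ _)⟩
  refine ⟨θ, t0, t2, ⌈1 / θ + (1 + 1 / θ) / η + 2 / θ / η / c⌉₊, ?_⟩
  intro D hD ρ r1 r2 V _ _ P hL hR hH
  have hD' := Nat.ceil_le.1 hD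
  have p1 : 0 < 1 / θ := by positivity
  have p2 : 0 < (1 + 1 / θ) / η := by positivity
  have p3 : 0 < 2 / θ / η / c := by positivity
  have d0 : (0 : ℝ) < D := by linarith
  have d1 : 1 ≤ θ * D := by
    have : 1 / θ ≤ D := by linarith
    rwa [div_le_iff₀' t0] at this
  have d2 : 1 + 1 / θ ≤ η * D := by
    have : (1 + 1 / θ) / η ≤ D := by linarith
    rwa [div_le_iff₀' hη] at this
  have d3 : 2 / θ ≤ η * ρ := by
    have : 2 / θ / η / c ≤ D := by linarith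
    rw [div_le_iff₀' hc] at this
    exact (div_le_iff₀' hη).1 (this.trans r1)
  have ρ0 : 0 < ρ := (mul_pos hc d0).trans_le r1
  obtain ⟨m, m1, m2⟩ : ∃ m : ℕ, θ * D ≤ m ∧ (m : ℝ) ≤ 2 * θ * D :=
    ⟨⌈θ * D⌉₊, Nat.le_ceil _, by linarith [Nat.ceil_lt_add_one (zero_le_one.trans d1)]⟩
  have m0 : (0 : ℝ) < m := by linarith
  have m3 : 4 * (m : ℝ) ≤ ρ := by nlinarith
  have m4 : ∀ n : ℕ, n ≤ D → (n : ℝ) / m ≤ 1 / θ := fun n hn => by
    rw [div_le_div_iff₀ m0 t0]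
    nlinarith [(Nat.cast_le (α := ℝ)).2 hn]
  obtain ⟨Kx, Kw, k1, k2, k3, k4⟩ :=
    palettes P c θ ρ D hc t0 t1 t2 (Nat.cast_pos.1 d0) r1 r2 hL hR hH
  have kL : ∀ w, Kw w ≤ 2 + univ.sup Kw := fun w => (le_sup (mem_univ w)).trans le_add_self
  have hU : ∀ w, (univ.filter fun r : Fin (2 + univ.sup Kw) => (r : ℕ) < Kw w).card = Kw w :=
    fun w => by rw [Fin.card_filter_val_lt, min_eq_right (kL w)]
  obtain ⟨ψ, hψ⟩ := potential (α := Fin (2 + univ.sup Kw)) P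
  obtain ⟨S, s1, s2⟩ := game (fun w => univ.filter fun r : Fin (2 + univ.sup Kw) => (r : ℕ) < Kw w)
    m (Nat.cast_pos.1 m0) (fun w => by
      rw [hU]
      exact (Nat.cast_le (α := ℝ)).1 (by linarith [k1 w])) ψ (pay P) (pay_update P) hψ
  have n0 := lawS_nonneg S m
  have n1 := lawS_sum S (Nat.cast_pos.1 m0) fun i => (s1 i).2
  have n2 : ∀ i a, lawS S m i a ≤ 1 / m := fun i a => by
    unfold lawS
    split_ifs
    exacts [(one_div _).ge, by positivity]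
  have n3 : ∀ i a, lawS S m i a ≠ 0 → a ∈ S i := fun i a h => by
    by_contra e
    exact h (if_neg e)
  refine ⟨_, lawS S m, le_self_add, n0, n1, fun i a => (n2 i a).trans
    (one_div_le_one_div_of_le (by positivity) m1), fun x => ?_, fun w r hr => ?_⟩
  · have := mean_seen2 _ n0 n1 m n2 (Kx x) (k3 x).1 (nL P x) fun i hi a ha =>
      (mem_filter.1 ((s1 i).1 (n3 i a ha))).2.trans_le (k2 (x, i) (mem_nL.1 hi))
    linarith [(k3 x).2, m4 _ (hL x)]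
  have K1 := k1 w
  have K0 : (0 : ℝ) < Kw w := ρ0.trans_le K1
  have e0 : ∀ a, 0 ≤ ∑ ξ, pw (lawS S m) ξ * pay P w a ξ := fun a =>
    sum_nonneg fun ξ _ => mul_nonneg (pw_nonneg n0 ξ) (pay_nonneg P w a ξ)
  have e1 := card_nsmul_le_sum _ _ _ fun a ha =>
    s2 w r (n3 w r hr) a (mem_sdiff.1 ha).1 (mem_sdiff.1 ha).2
  have e2 := e1.trans ((sum_le_sum_of_subset_of_nonneg sdiff_subset fun a _ _ => e0 a).trans
    (good_law_aux1 P _ n0 n1 m m0 n2 (Kw w) (Nat.cast_pos.1 K0) (kL w) w))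
  have e3 := good_law_aux2 (nR P w) (fun x => 1 - hh ((nL P x).card / Kw w)) ρ0.le
    fun x hx => k4 (x, w) (mem_nR.1 hx)
  have e4 := sum_le_card_nsmul (nR P w) (fun x => ((nL P x).card : ℝ) / m) _ fun x _ => m4 _ (hL x)
  have e5 : ((nR P w).card : ℝ) ≤ D := Nat.cast_le.2 (hR w)
  rw [card_sdiff_of_subset (s1 w).1, hU, (s1 w).2, nsmul_eq_mul,
    Nat.cast_sub ((Nat.cast_le (α := ℝ)).1 (by linarith)), sum_add_distrib, ← mul_sum] at e2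
  rw [nsmul_eq_mul] at e4
  have e6 : 2 / θ = 2 * (1 / θ) := by ring
  have e7 : 3 / 4 * ρ * (η * D) ≤ (Kw w - m) * (η * D) :=
    mul_le_mul_of_nonneg_right (by linarith) (by positivity)
  have e8 : m * ρ ≤ η * D / 4 * ρ := mul_le_mul_of_nonneg_right (by nlinarith) ρ0.le
  have e9 : ((nR P w).card : ℝ) * (1 / θ) ≤ D * (η * ρ / 2) :=
    mul_le_mul e5 (by linarith) p1.le d0.le
  refine le_of_mul_le_mul_left ?_ (show (0 : ℝ) < Kw w - m by linarith)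
  nlinarith [mul_le_mul_of_nonneg_left e3 K0.le]

end Pool.Agent.Lib.MP_9087e4_co.Mx
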