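import Mathlib
import Pool.Agent.Lib.MP_9087e4_co.Mx.Tail
import Pool.Agent.Lib.MP_9087e4_co.Mx.Defs2

set_option autoImplicit false

namespace Pool.Agent.Lib.MP_9087e4_co.Mx

open Finset Polynomial Pool.Agent.Lib.MP_f8e628_co

theorem tail2_card_le {ι α : Type} [DecidableEq ι] [DecidableEq α] (N : Finset ι) (ξ : ι → α)
    (i : ι) (a b : α) :
    (N.image (Function.update ξ i a)).card ≤ (N.image (Function.update ξ i b)).card + 1 := by
  have h : N.image (Function.update ξ i a) ⊆ insert a (N.image (Function.update ξ i b)) := by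
    intro x hx
    obtain ⟨j, hj, rfl⟩ := Finset.mem_image.mp hx
    by_cases hji : j = i
    · subst hji
      simp
    · refine Finset.mem_insert_of_mem (Finset.mem_image.mpr ⟨j, hj, ?_⟩)
      simp [Function.update_of_ne hji]
  exact (Finset.card_le_card h).trans (Finset.card_insert_le _ _)

theorem tail2_image_eq {ι α : Type} [DecidableEq ι] [DecidableEq α] (N : Finset ι) (ξ : ι → α)
    (i : ι) (hi : i ∉ N) (a b : α) :
    N.image (Function.update ξ i a) = N.image (Function.update ξ i b) := by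
  refine Finset.image_congr fun j hj => ?_
  have hji : j ≠ i := fun h => hi (h ▸ hj)
  simp [Function.update_of_ne hji]

theorem tail2_term_abs (m n : ℕ) :
    |(1 - 1 / ((m : ℝ) + 1)) - (1 - 1 / ((n : ℝ) + 1))| ≤ 1 := by
  have hm : (0 : ℝ) < (m : ℝ) + 1 := by positivity
  have hn : (0 : ℝ) < (n : ℝ) + 1 := by positivity
  have h1 : 1 / ((m : ℝ) + 1) ≤ 1 := by
    rw [div_le_one hm]; linarith [(Nat.cast_nonneg m : (0 : ℝ) ≤ m)]
  have h2 : 1 / ((n : ℝ) + 1) ≤ 1 := by
    rw [div_le_one hn]; linarith [(Nat.cast_nonneg n : (0 : ℝ) ≤ n)]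
  have h3 : 0 < 1 / ((m : ℝ) + 1) := by positivity
  have h4 : 0 < 1 / ((n : ℝ) + 1) := by positivity
  rw [abs_le]; constructor <;> linarith

theorem tail2_change {V α : Type} [Fintype V] [DecidableEq V] [DecidableEq α]
    (P : Finset (V × V)) (w : V) (r a0 : α) (ha0 : a0 ≠ r) (ξ : V → α) (i : V) (a : α) :
    |pay P w r (Function.update ξ i a) - pay P w r (Function.update ξ i a0)| ≤
      if a = r ∧ i ≠ w then ((nR P w ∩ nR P i).card : ℝ) else 0 := by
  unfold pay
  rw [← Finset.sum_sub_distrib]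
  refine (Finset.abs_sum_le_sum_abs _ _).trans ?_
  have key : ∀ x ∈ nR P w,
      |(1 - 1 / (((((nL P x).erase w).filter fun w' => Function.update ξ i a w' = r).card : ℝ) + 1))
        - (1 - 1 / (((((nL P x).erase w).filter
          fun w' => Function.update ξ i a0 w' = r).card : ℝ) + 1))| ≤
        if (a = r ∧ i ≠ w) ∧ x ∈ nR P i then 1 else 0 := by
    intro x _
    split_ifs with h
    · exact tail2_term_abs _ _
    · have : (((nL P x).erase w).filter fun w' => Function.update ξ i a w' = r) =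
          (((nL P x).erase w).filter fun w' => Function.update ξ i a0 w' = r) := by
        refine Finset.filter_congr fun w' hw' => ?_
        by_cases hi : w' = i
        · subst hi
          rw [Finset.mem_erase, mem_nL] at hw'
          have har : a ≠ r := fun har => h ⟨⟨har, hw'.1⟩, mem_nR.2 hw'.2⟩
          simp [har, ha0]
        · simp [Function.update_of_ne hi]
      rw [this]; simp
  refine (Finset.sum_le_sum key).trans ?_
  by_cases h : a = r ∧ i ≠ w
  · simp only [h, true_and, and_self, ne_eq, not_false_eq_true, if_true]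
    rw [Finset.sum_boole, Finset.filter_mem_eq_inter]
  · simp [h]

theorem tail2_double {V : Type} [Fintype V] [DecidableEq V] (P : Finset (V × V)) (w : V) :
    ∑ i, ((nR P w ∩ nR P i).card : ℝ) = ∑ x ∈ nR P w, ((nL P x).card : ℝ) := by
  have h1 : ∀ i, ((nR P w ∩ nR P i).card : ℝ) =
      ∑ x ∈ nR P w, if (x, i) ∈ P then (1 : ℝ) else 0 := by
    intro i
    rw [Finset.sum_boole, ← Finset.filter_mem_eq_inter]
    congr 2
    exact Finset.filter_congr fun x _ => mem_nR
  simp only [h1]
  rw [Finset.sum_comm]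
  refine Finset.sum_congr rfl fun x _ => ?_
  rw [Finset.sum_boole]
  rfl

theorem tail_seen2 {ι α : Type} [Fintype ι] [DecidableEq ι] [Fintype α] [DecidableEq α] (a0 : α)
    (ν : ι → α → ℝ) (h0 : ∀ i a, 0 ≤ ν i a) (h1 : ∀ i, ∑ a, ν i a = 1) (N : Finset ι)
    (D μ η : ℝ) (hN : (N.card : ℝ) ≤ D) (hm : ∑ ξ, pw ν ξ * ((N.image ξ).card : ℝ) ≤ μ)
    (hη0 : 0 ≤ η) (hη : η ≤ 2) :
    mass (pw ν) (fun ξ => μ + η * D ≤ ((N.image ξ).card : ℝ)) ≤ Real.exp (-(η ^ 2 * D / 4)) := by
  have key := pw_tail ν h0 h1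
    (fun ξ => ((N.image ξ).card : ℝ)) a0 (fun i _ => if i ∈ N then 1 else 0)
    (by
      intro ξ i a
      by_cases hi : i ∈ N
      · rw [if_pos hi, abs_le]
        have e1 : ((N.image (Function.update ξ i a)).card : ℝ) ≤
            (N.image (Function.update ξ i a0)).card + 1 := by
          exact_mod_cast tail2_card_le N ξ i a a0
        have e2 : ((N.image (Function.update ξ i a0)).card : ℝ) ≤
            (N.image (Function.update ξ i a)).card + 1 := by
          exact_mod_cast tail2_card_le N ξ i a0 a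
        constructor <;> linarith
      · rw [if_neg hi, tail2_image_eq N ξ i hi a a0]
        simp)
    (η / 2) μ D (η * D) (by linarith)
    (by
      intro i a
      by_cases hi : i ∈ N
      · rw [if_pos hi]; linarith
      · rw [if_neg hi]; simp)
    hm
    (by
      have e : ∀ i : ι, ∑ a : α, ν i a * (if i ∈ N then (1 : ℝ) else 0) ^ 2 =
          if i ∈ N then (1 : ℝ) else 0 := by
        intro i
        rw [← Finset.sum_mul, h1 i]
        by_cases hi : i ∈ N <;> simp [hi]
      rw [Finset.sum_congr rfl fun i _ => e i]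
      have : ∑ i : ι, (if i ∈ N then (1 : ℝ) else 0) = N.card := by
        simp
      rw [this]
      exact hN)
  refine key.trans (le_of_eq ?_)
  congr 1
  ring

theorem tail_pay2 {V α : Type} [Fintype V] [DecidableEq V] [Fintype α] [DecidableEq α]
    (ν : V → α → ℝ) (h0 : ∀ i a, 0 ≤ ν i a) (h1 : ∀ i, ∑ a, ν i a = 1) (r a0 : α) (ha : a0 ≠ r)
    (D : ℕ) (θ κ μ η : ℝ) (hD : 0 < D) (hθ : 0 < θ) (hκ : 0 < κ) (hη0 : 0 ≤ η) (hη : η * θ ≤ 2)
    (hν : ∀ i, ν i r ≤ 1 / (θ * D)) (P : Finset (V × V)) (hL : ∀ x, (nL P x).card ≤ D)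
    (hR : ∀ w, (nR P w).card ≤ D) (hcod : ∀ w w', w ≠ w' → ((nR P w ∩ nR P w').card : ℝ) ≤ κ)
    (w : V) (hm : ∑ ξ, pw ν ξ * pay P w r ξ ≤ μ) :
    mass (pw ν) (fun ξ => μ + η * D ≤ pay P w r ξ) ≤
      Real.exp (-(η ^ 2 * θ * D / (4 * κ))) := by
  have hD0 : (0 : ℝ) < D := by exact_mod_cast hD
  have main := pw_tail ν h0 h1 (pay P w r) a0
    (fun i a => if a = r ∧ i ≠ w then ((nR P w ∩ nR P i).card : ℝ) else 0)
    (fun ξ i a => tail2_change P w r a0 ha ξ i a) (η * θ / (2 * κ)) μ (κ * D / θ)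
    (η * D) (by positivity) ?_ hm ?_
  · refine main.trans (le_of_eq ?_)
    congr 1
    field_simp
    ring
  · intro i a
    split_ifs with h
    · have := hcod w i (Ne.symm h.2)
      calc η * θ / (2 * κ) * ((nR P w ∩ nR P i).card : ℝ) ≤ η * θ / (2 * κ) * κ :=
            mul_le_mul_of_nonneg_left this (by positivity)
        _ = η * θ / 2 := by field_simp
        _ ≤ 1 := by linarith
    · simp
  · have hi : ∀ i : V, ∑ a : α, ν i a *
        (if a = r ∧ i ≠ w then ((nR P w ∩ nR P i).card : ℝ) else 0) ^ 2 ≤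
        1 / (θ * D) * κ * ((nR P w ∩ nR P i).card : ℝ) := by
      intro i
      by_cases h : i = w
      · have : (0 : ℝ) ≤ 1 / (θ * D) * κ * ((nR P w ∩ nR P i).card : ℝ) := by positivity
        simpa [h] using this
      · rw [Finset.sum_eq_single r]
        · have hc := hcod w i (Ne.symm h)
          have hc0 : (0 : ℝ) ≤ ((nR P w ∩ nR P i).card : ℝ) := Nat.cast_nonneg _
          simp only [h, ne_eq, not_false_eq_true, and_self, if_true]
          rw [mul_assoc]
          refine mul_le_mul (hν i) ?_ (by positivity) (by positivity)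
          nlinarith
        · intro b _ hb
          simp [hb]
        · simp
    refine (Finset.sum_le_sum fun i _ => hi i).trans ?_
    rw [← Finset.mul_sum, tail2_double]
    have h2 : ∑ x ∈ nR P w, ((nL P x).card : ℝ) ≤ D * D := by
      have : ∑ x ∈ nR P w, ((nL P x).card : ℝ) ≤ ∑ _x ∈ nR P w, (D : ℝ) :=
        Finset.sum_le_sum fun x _ => by exact_mod_cast hL x
      refine this.trans ?_
      rw [Finset.sum_const, nsmul_eq_mul]
      have : ((nR P w).card : ℝ) ≤ D := by exact_mod_cast hR w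
      exact mul_le_mul_of_nonneg_right this hD0.le
    calc 1 / (θ * D) * κ * ∑ x ∈ nR P w, ((nL P x).card : ℝ) ≤ 1 / (θ * D) * κ * (D * D) :=
          mul_le_mul_of_nonneg_left h2 (by positivity)
      _ = κ * D / θ := by field_simp

end Pool.Agent.Lib.MP_9087e4_co.Mx
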