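import Mathlib
import Pool.Agent.Lib.MP_9087e4_co.Mx.Law
import Pool.Agent.Lib.MP_9087e4_co.Mx.Tail2
import Pool.Agent.Lib.MP_9087e4_co.Mx.Bad
import Pool.Agent.Lib.MP_9087e4_co.Mx.Lll

set_option autoImplicit false

namespace Pool.Agent.Lib.MP_9087e4_co.Mx

open Finset Polynomial Pool.Agent.Lib.MP_f8e628_co

theorem lll_num2 (c : ℝ) (hc : 0 < c) : ∃ D0 : ℕ, 1 ≤ D0 ∧ ∀ D : ℕ, D0 ≤ D →
    4 * Real.exp (-(c * D)) * (2 * (D : ℝ) ^ 3 * (3 * (D : ℝ) ^ 3) + 1) ≤ 1 := by
  obtain ⟨D0, hD0, h⟩ := bis_num (c / 8) (by positivity)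
  refine ⟨D0, by omega, fun D hD => ?_⟩
  have hD12 : (12 : ℝ) ≤ D := by exact_mod_cast hD0.trans hD
  have hD0' : (0 : ℝ) < D := by linarith
  have e1 : (D : ℝ) ^ 8 ≤ Real.exp (c * D) := by
    rw [← Real.exp_log (pow_pos hD0' 8), Real.log_pow]
    apply Real.exp_le_exp.2
    have := h D hD
    push_cast
    linarith
  have e2 : 4 * (2 * (D : ℝ) ^ 3 * (3 * (D : ℝ) ^ 3) + 1) ≤ (D : ℝ) ^ 8 := by
    have h6 : 1 ≤ (D : ℝ) ^ 6 := one_le_pow₀ (by linarith)
    have h2 : (28 : ℝ) ≤ (D : ℝ) ^ 2 := by nlinarith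
    have h8 : (D : ℝ) ^ 8 = (D : ℝ) ^ 6 * (D : ℝ) ^ 2 := by ring
    have h3 : 2 * (D : ℝ) ^ 3 * (3 * (D : ℝ) ^ 3) = 6 * (D : ℝ) ^ 6 := by ring
    rw [h8, h3]
    nlinarith
  rw [Real.exp_neg, mul_right_comm, ← div_eq_mul_inv, div_le_one (Real.exp_pos _)]
  exact e2.trans e1

theorem col2_bi {V : Type} [DecidableEq V] (S : Finset V) (f : V → Finset V) (a b : ℕ)
    (hS : S.card ≤ a) (hf : ∀ x, (f x).card ≤ b) : (S.biUnion f).card ≤ a * b :=
  calc (S.biUnion f).card ≤ ∑ x ∈ S, (f x).card := card_biUnion_le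
    _ ≤ S.card * b := by simpa using sum_le_card_nsmul S (fun x => (f x).card) b fun x _ => hf x
    _ ≤ a * b := Nat.mul_le_mul_right b hS

theorem col2_congr {V α : Type} [Fintype V] [DecidableEq V] [DecidableEq α]
    (P : Finset (V × V)) (w : V) (r : α) (ξ ξ' : V → α)
    (h : ∀ i ∈ (nR P w).biUnion (nL P), ξ i = ξ' i) : pay P w r ξ = pay P w r ξ' := by
  unfold pay
  refine sum_congr rfl fun x hx => ?_
  have : (((nL P x).erase w).filter fun w' => ξ w' = r) =
      (((nL P x).erase w).filter fun w' => ξ' w' = r) := by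
    refine filter_congr fun w' hw' => ?_
    rw [h w' (mem_biUnion.2 ⟨x, hx, mem_of_mem_erase hw'⟩)]
  rw [this]

/-- the variables on which an event depends -/
def col2_dp {V : Type} [Fintype V] [DecidableEq V] (P : Finset (V × V)) (j : V × Bool) :
    Finset V :=
  bif j.2 then nL P j.1 ∪ (nL P j.1).biUnion fun w => (nR P w).biUnion (nL P) else nL P j.1

theorem col2_s {V : Type} [Fintype V] [DecidableEq V] (P : Finset (V × V)) (D : ℕ)
    (hL : ∀ x, (nL P x).card ≤ D) (hR : ∀ w, (nR P w).card ≤ D) (j : V × Bool) :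
    (col2_dp P j).card ≤ 2 * D ^ 3 := by
  obtain ⟨x, b⟩ := j
  have h3 : D ≤ D ^ 3 := Nat.le_self_pow (by norm_num) D
  have h1 := hL x
  cases b with
  | false => exact h1.trans (by omega)
  | true =>
    have h2 := col2_bi (nL P x) (fun w => (nR P w).biUnion (nL P)) D (D * D) h1
      fun w => col2_bi _ _ D D (hR w) hL
    have h4 : D * (D * D) = D ^ 3 := by ring
    exact (card_union_le _ _).trans ((Nat.add_le_add h1 h2).trans (by omega))

theorem col2_t {V : Type} [Fintype V] [DecidableEq V] (P : Finset (V × V)) (D : ℕ)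
    (hL : ∀ x, (nL P x).card ≤ D) (hR : ∀ w, (nR P w).card ≤ D) (i : V) :
    (univ.filter fun j => i ∈ col2_dp P j).card ≤ 3 * D ^ 3 := by
  have hsub : (univ.filter fun j => i ∈ col2_dp P j) ⊆ (nR P i).image (fun x => (x, false)) ∪
      (nR P i ∪ ((nR P i).biUnion (nL P)).biUnion (nR P)).image (fun x => (x, true)) := by
    rintro ⟨x, b⟩ hj
    have h := (mem_filter.1 hj).2
    cases b with
    | false =>
      refine mem_union_left _ (mem_image.2 ⟨x, ?_, rfl⟩)
      simpa [col2_dp] using h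
    | true =>
      refine mem_union_right _ (mem_image.2 ⟨x, ?_, rfl⟩)
      simp only [col2_dp, cond_true, mem_union, mem_biUnion, mem_nL, mem_nR] at h ⊢
      rcases h with h | ⟨w, h1, y, h2, h3⟩
      · exact Or.inl h
      · exact Or.inr ⟨w, ⟨y, h3, h2⟩, h1⟩
  have h1 : ((nR P i).image (fun x => (x, false))).card ≤ D := card_image_le.trans (hR i)
  have h2 := col2_bi _ (nR P) (D * D) D (col2_bi _ (nL P) D D (hR i) hL) hR
  have h5 : ((nR P i ∪ ((nR P i).biUnion (nL P)).biUnion (nR P)).image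
      (fun x => (x, true))).card ≤ D + D * D * D :=
    card_image_le.trans ((card_union_le _ _).trans (Nat.add_le_add (hR i) h2))
  have h3 : D ≤ D ^ 3 := Nat.le_self_pow (by norm_num) D
  have h4 := (card_le_card hsub).trans (card_union_le _ _)
  have h6 : D * D * D = D ^ 3 := by ring
  omega

theorem col2_fin {V : Type} [Fintype V] [DecidableEq V] (P : Finset (V × V)) {L : ℕ}
    (ξ : V → Fin L) (a b y : ℝ) (hy : 0 ≤ y)
    (h1 : ∀ x, (((nL P x).image ξ).card : ℝ) ≤ a)
    (h2 : ∀ x, ∑ w ∈ nL P x, ind (y ≤ pay P w (ξ w) ξ) ≤ b) :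
    ∃ col : V → ℕ, (∀ x, (((nL P x).image col).card : ℝ) ≤ a + b) ∧
      ∀ w, pay P w (col w) col ≤ y := by
  classical
  obtain ⟨enc, henc⟩ : ∃ enc : V → ℕ, Function.Injective enc :=
    ⟨fun v => (Fintype.equivFin V v : ℕ), fun u v h => (Fintype.equivFin V).injective (Fin.ext h)⟩
  refine ⟨fun w => if y ≤ pay P w (ξ w) ξ then L + enc w else ξ w, fun x => ?_, fun w => ?_⟩
  · have hsub : (nL P x).image (fun w => if y ≤ pay P w (ξ w) ξ then L + enc w else (ξ w : ℕ)) ⊆
        ((nL P x).image ξ).image Fin.val ∪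
          ((nL P x).filter fun w => y ≤ pay P w (ξ w) ξ).image fun w => L + enc w := by
      intro r hr
      obtain ⟨w, hw, rfl⟩ := mem_image.1 hr
      by_cases hB : y ≤ pay P w (ξ w) ξ
      · rw [if_pos hB]
        exact mem_union_right _ (mem_image.2 ⟨w, mem_filter.2 ⟨hw, hB⟩, rfl⟩)
      · rw [if_neg hB]
        exact mem_union_left _ (mem_image.2 ⟨ξ w, mem_image_of_mem _ hw, rfl⟩)
    have e1 := (card_le_card hsub).trans ((card_union_le _ _).trans
      (Nat.add_le_add card_image_le card_image_le))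
    have e2 : (((nL P x).filter fun w => y ≤ pay P w (ξ w) ξ).card : ℝ) =
        ∑ w ∈ nL P x, ind (y ≤ pay P w (ξ w) ξ) := by
      rw [card_filter]
      push_cast
      refine sum_congr rfl fun w _ => ?_
      by_cases hB : y ≤ pay P w (ξ w) ξ
      · rw [if_pos hB, ind_pos hB]
      · rw [if_neg hB, ind_neg hB]
    have e3 := (Nat.cast_le (α := ℝ)).2 e1
    rw [Nat.cast_add, e2] at e3
    exact e3.trans (add_le_add (h1 x) (h2 x))
  · by_cases hB : y ≤ pay P w (ξ w) ξ
    · rw [pay_eq_zero]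
      · exact hy
      · intro i hi h
        simp only [if_pos hB] at h
        split_ifs at h
        · exact hi (henc (by omega))
        · have := (ξ i).2
          omega
    · refine (pay_mono P w (r' := ξ w) (ξ' := ξ) fun i _ h => ?_).trans (not_le.1 hB).le
      simp only [if_neg hB] at h
      split_ifs at h
      · have := (ξ w).2
        omega
      · exact Fin.ext h

theorem colouring2 (c η : ℝ) (hc : 0 < c) (hη : 0 < η) :
    ∃ δ : ℝ, 0 < δ ∧ ∃ D0 : ℕ, ∀ D : ℕ, D0 ≤ D → ∀ ρ : ℝ, c * D ≤ ρ →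
      ∀ (V : Type) [Fintype V] [DecidableEq V] (P : Finset (V × V)),
      (∀ x, (nL P x).card ≤ D) → (∀ w, (nR P w).card ≤ D) → HarmP P ρ →
      (∀ w w', w ≠ w' → ((nR P w ∩ nR P w').card : ℝ) ≤ δ * D) →
      ∃ col : V → ℕ, (∀ x, (((nL P x).image col).card : ℝ) ≤ ρ + η * D) ∧
        ∀ w, pay P w (col w) col ≤ ρ + η * D := by
  obtain ⟨e, he0, he1, he2⟩ : ∃ e : ℝ, 0 < e ∧ e ≤ 1 ∧ e ≤ η / 4 :=
    ⟨min (η / 4) 1, lt_min (by linarith) one_pos, min_le_right _ _, min_le_left _ _⟩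
  obtain ⟨θ, hθ0, hθ1, D1, hlaw⟩ := good_law c e hc he0
  obtain ⟨p0, hp0, hbad⟩ := tail_bad θ e hθ0 he0
  obtain ⟨D2, hD2, hnum⟩ := lll_num2 (e ^ 2 / 4) (by positivity)
  refine ⟨e ^ 2 * θ * p0 / 4, by positivity, max D1 D2,
    fun D hD ρ hρ V _ _ P hL hR hH hcod => ?_⟩
  have hD1 : 1 ≤ D := hD2.trans ((le_max_right _ _).trans hD)
  have hDpos : (0 : ℝ) < D := by exact_mod_cast hD1
  have hρ0 : 0 ≤ ρ := (mul_pos hc hDpos).le.trans hρ
  have heD : 0 < e * D := mul_pos he0 hDpos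
  have heη : e * D ≤ η / 4 * D := mul_le_mul_of_nonneg_right he2 hDpos.le
  by_cases hρD : ρ ≤ D
  swap
  · obtain ⟨enc, henc⟩ : ∃ enc : V → ℕ, Function.Injective enc :=
      ⟨fun v => (Fintype.equivFin V v : ℕ),
        fun u v h => (Fintype.equivFin V).injective (Fin.ext h)⟩
    refine ⟨enc, fun x => ?_, fun w => ?_⟩
    · have h1 : (((nL P x).image enc).card : ℝ) ≤ D := by
        exact_mod_cast card_image_le.trans (hL x)
      linarith [not_le.1 hρD]
    · rw [pay_eq_zero P w fun i hi h => hi (henc h)]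
      linarith
  obtain ⟨L, ν, hL2, h0, h1, hν, hs, hp⟩ :=
    hlaw D ((le_max_left _ _).trans hD) ρ hρ hρD V P hL hR hH
  have hpay : ∀ w r, ν w r ≠ 0 →
      mass (pw ν) (fun ξ => ρ + e * D + e * D ≤ pay P w r ξ) ≤ p0 := fun w r hr => by
    have : Nontrivial (Fin L) := Fin.nontrivial_iff_two_le.2 hL2
    obtain ⟨a0, ha0⟩ := exists_ne r
    refine (tail_pay2 ν h0 h1 r a0 ha0 D θ (e ^ 2 * θ * p0 / 4 * D) (ρ + e * D) e hD1 hθ0
      (by positivity) he0.le (by nlinarith) (fun i => hν i r) P hL hR hcod w (hp w r hr)).trans ?_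
    have e1 : e ^ 2 * θ * D / (4 * (e ^ 2 * θ * p0 / 4 * D)) = p0⁻¹ := by
      field_simp
    rw [e1, Real.exp_neg, inv_le_comm₀ (Real.exp_pos _) hp0]
    linarith [Real.add_one_le_exp p0⁻¹]
  obtain ⟨ξ, hξ⟩ := lll_vars (J := V × Bool) ν h0 h1
    (fun j ξ => bif j.2 then
      e * D ≤ ∑ w ∈ nL P j.1, ind (ρ + e * D + e * D ≤ pay P w (ξ w) ξ)
      else ρ + e * D + e * D ≤ (((nL P j.1).image ξ).card : ℝ))
    (col2_dp P)
    (by
      rintro ⟨x, b⟩ ξ ξ' h hB
      cases b with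
      | false =>
        simp only [col2_dp, cond_false] at h hB ⊢
        have : (nL P x).image ξ' = (nL P x).image ξ := image_congr fun i hi => (h i hi).symm
        rw [this]
        exact hB
      | true =>
        simp only [col2_dp, cond_true] at h hB ⊢
        refine hB.trans (le_of_eq (sum_congr rfl fun w hw => ?_))
        rw [← h w (mem_union_left _ hw), col2_congr P w (ξ w) ξ ξ' fun i hi =>
          h i (mem_union_right _ (mem_biUnion.2 ⟨w, hw, hi⟩))])
    (2 * (D : ℝ) ^ 3) (3 * (D : ℝ) ^ 3) (Real.exp (-(e ^ 2 / 4 * D)))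
    (fun j => by exact_mod_cast col2_s P D hL hR j)
    (fun i => by exact_mod_cast col2_t P D hL hR i)
    (by positivity) (by positivity) (Real.exp_pos _).le
    (by
      rintro ⟨x, b⟩
      have hx : ((nL P x).card : ℝ) ≤ D := by exact_mod_cast hL x
      cases b with
      | false =>
        simp only [cond_false]
        refine (tail_seen2 ⟨0, by omega⟩ ν h0 h1 (nL P x) D (ρ + e * D) e hx (hs x) he0.le
          (by linarith)).trans (le_of_eq ?_)
        congr 1
        ring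
      | true =>
        simp only [cond_true]
        refine (hbad V (Fin L) ν h0 h1 D hDpos hν (nL P x) hx
          (fun w r ξ => ρ + e * D + e * D ≤ pay P w r ξ)
          (fun w r ξ ξ' h hB => hB.trans (pay_mono P w h)) hpay).trans ?_
        apply Real.exp_le_exp.2
        nlinarith [mul_le_mul_of_nonneg_right he1 heD.le])
    (hnum D ((le_max_right _ _).trans hD))
  obtain ⟨col, hc1, hc2⟩ := col2_fin P ξ (ρ + e * D + e * D) (e * D) (ρ + e * D + e * D)
    (by linarith) (fun x => (not_le.1 (hξ (x, false))).le) fun x => (not_le.1 (hξ (x, true))).le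
  exact ⟨col, fun x => (hc1 x).trans (by linarith), fun w => (hc2 w).trans (by linarith)⟩

end Pool.Agent.Lib.MP_9087e4_co.Mx
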