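import Mathlib
import Pool.Agent.Lib.MP_9087e4_co.Mx.Defs

set_option autoImplicit false

namespace Pool.Agent.Lib.MP_9087e4_co.Mx

open Finset Polynomial Pool.Agent.Lib.MP_f8e628_co

theorem count_small {V : Type} [DecidableEq V] (N : V → Finset V) (κ : ℝ)
    (hcod : ∀ w w', w ≠ w' → ((N w ∩ N w').card : ℝ) ≤ κ) (J : Finset V) :
    ∑ w ∈ J, ((N w).card : ℝ) ≤
      ((J.biUnion N).card : ℝ) + κ * (J.card * (J.card - 1) / 2) := by
  induction J using Finset.induction_on with
  | empty => simp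
  | insert z J hz ih =>
    rw [sum_insert hz, biUnion_insert, card_insert_of_notMem hz]
    have h1 : ((N z ∪ J.biUnion N).card : ℝ) + (N z ∩ J.biUnion N).card =
        (N z).card + (J.biUnion N).card := by
      exact_mod_cast card_union_add_card_inter (N z) (J.biUnion N)
    have h2 : ((N z ∩ J.biUnion N).card : ℝ) ≤ κ * J.card := by
      rw [inter_biUnion]
      have h3 : ((J.biUnion fun w => N z ∩ N w).card : ℝ) ≤ ∑ w ∈ J, ((N z ∩ N w).card : ℝ) := by
        exact_mod_cast card_biUnion_le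
      have h4 : ∑ w ∈ J, ((N z ∩ N w).card : ℝ) ≤ ∑ _w ∈ J, κ :=
        sum_le_sum fun w hw => hcod z w fun e => hz (e ▸ hw)
      rw [sum_const, nsmul_eq_mul] at h4
      linarith
    push_cast
    nlinarith

theorem count_swap {V : Type} [Fintype V] [DecidableEq V] (P : Finset (V × V)) (J : Finset V) :
    ∑ w ∈ J, ∑ x ∈ nR P w, (1 / ((J ∩ nL P x).card : ℝ)) = ((J.biUnion (nR P)).card : ℝ) := by
  rw [sum_comm' (t' := J.biUnion (nR P)) (s' := fun x => J ∩ nL P x)]
  · rw [card_eq_sum_ones, Nat.cast_sum]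
    refine sum_congr rfl fun x hx => ?_
    obtain ⟨w, hw, hxw⟩ := mem_biUnion.mp hx
    have h : 0 < (J ∩ nL P x).card :=
      card_pos.mpr ⟨w, mem_inter.mpr ⟨hw, mem_nL.mpr (mem_nR.mp hxw)⟩⟩
    have h' : ((J ∩ nL P x).card : ℝ) ≠ 0 := by exact_mod_cast h.ne'
    rw [sum_const, nsmul_eq_mul, mul_one_div_cancel h', Nat.cast_one]
  · intro w x
    simp only [mem_inter, mem_nL, mem_nR, mem_biUnion]
    exact ⟨fun h => ⟨h, w, h⟩, fun h => h.1⟩

theorem count_of_pay {V : Type} [Fintype V] [DecidableEq V] (P : Finset (V × V)) (col : V → ℕ)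
    (b : ℕ) (s κ : ℝ) (hs : 0 < s) (hκ : κ ≤ 2 * s)
    (hcod : ∀ w w', w ≠ w' → ((nR P w ∩ nR P w').card : ℝ) ≤ κ)
    (hpay : ∀ w, pay P w (col w) col + s ≤ b) (J : Finset V) (hJ : J.Nonempty)
    (hm : ∀ w ∈ J, ∀ w' ∈ J, col w = col w') :
    ∑ w ∈ J, (nR P w).card + b ≤ (J.biUnion (nR P)).card + b * J.card := by
  have hn : (1 : ℝ) ≤ J.card := by exact_mod_cast card_pos.mpr hJ
  have key : ∑ w ∈ J, ((nR P w).card : ℝ) + b ≤ ((J.biUnion (nR P)).card : ℝ) + b * J.card := by
    by_cases hb : (b : ℝ) ≤ J.card * s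
    · have h1 : ∀ w ∈ J, ((nR P w).card : ℝ) ≤
          ∑ x ∈ nR P w, (1 / ((J ∩ nL P x).card : ℝ)) + (b - s) := by
        intro w hw
        have h2 : ∑ x ∈ nR P w, (1 - 1 / ((J ∩ nL P x).card : ℝ)) ≤ pay P w (col w) col := by
          refine sum_le_sum fun x hx => ?_
          have h3 : 0 < (J ∩ nL P x).card :=
            card_pos.mpr ⟨w, mem_inter.mpr ⟨hw, mem_nL.mpr (mem_nR.mp hx)⟩⟩
          have h4 : J ∩ nL P x ⊆
              insert w (((nL P x).erase w).filter fun w' => col w' = col w) := by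
            intro y hy
            rw [mem_inter] at hy
            by_cases hyw : y = w
            · exact mem_insert.mpr (Or.inl hyw)
            · exact mem_insert_of_mem
                (mem_filter.mpr ⟨mem_erase.mpr ⟨hyw, hy.2⟩, hm y hy.1 w hw⟩)
          have h5 : ((J ∩ nL P x).card : ℝ) ≤
              ((((nL P x).erase w).filter fun w' => col w' = col w).card : ℝ) + 1 := by
            exact_mod_cast (card_le_card h4).trans (card_insert_le _ _)
          have h6 : (0 : ℝ) < (J ∩ nL P x).card := by exact_mod_cast h3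
          have h7 := one_div_le_one_div_of_le h6 h5
          linarith
        rw [sum_sub_distrib, sum_const, nsmul_eq_mul, mul_one] at h2
        have h8 := hpay w
        linarith
      have h9 := sum_le_sum h1
      rw [sum_add_distrib, count_swap, sum_const, nsmul_eq_mul] at h9
      nlinarith
    · have h1 := count_small (nR P) κ hcod J
      have h2 : (0 : ℝ) ≤ J.card * (J.card - 1) / 2 := by
        have : (0 : ℝ) ≤ J.card - 1 := by linarith
        positivity
      have h3 := mul_le_mul_of_nonneg_right hκ h2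
      have h4 : (J.card * s) * ((J.card : ℝ) - 1) ≤ b * (J.card - 1) :=
        mul_le_mul_of_nonneg_right (not_le.mp hb).le (by linarith)
      nlinarith
  exact_mod_cast key

end Pool.Agent.Lib.MP_9087e4_co.Mx
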