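import Mathlib
import Pool.Agent.Lib.MP_9087e4_co.Mx.Defs

set_option autoImplicit false

namespace Pool.Agent.Lib.MP_9087e4_co.Mx

open Finset Polynomial

theorem mom_poly {ι : Type} (s : Finset ι) (ω α : ι → ℝ) (β : ℝ) (b : ℕ)
    (h : ∀ j < b, ∑ i ∈ s, ω i * (α i - β) ^ j = 0) (f : ℝ[X]) (hf : f.degree < b) :
    ∑ i ∈ s, ω i * f.eval (α i) = 0 := by
  by_cases h0 : f = 0
  · simp [h0]
  have h1 : (taylor β f).natDegree < b := by
    rw [natDegree_taylor]; exact (natDegree_lt_iff_degree_lt h0).2 hf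
  have h2 : ∀ i, f.eval (α i) = ∑ j ∈ range b, (taylor β f).coeff j * (α i - β) ^ j := fun i => by
    rw [← eval_eq_sum_range' h1, taylor_eval_sub]
  simp only [h2, Finset.mul_sum]
  rw [Finset.sum_comm]
  refine Finset.sum_eq_zero fun j hj => ?_
  simp only [mul_left_comm (ω _)]
  rw [← Finset.mul_sum, h j (Finset.mem_range.1 hj), mul_zero]

/-- a vertex that sees at most `b` colours balances each colour -/
theorem colour_sum {ι : Type} (s : Finset ι) (ω : ι → ℝ) (col : ι → ℕ) (β : ℝ) (b : ℕ)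
    (hb : (s.image col).card ≤ b) (h : ∀ j < b, ∑ i ∈ s, ω i * (β - col i) ^ j = 0) (r : ℕ) :
    ∑ i ∈ s.filter fun i => col i = r, ω i = 0 := by
  by_cases hr : r ∈ s.image col
  swap
  · refine Finset.sum_eq_zero fun i hi => absurd ?_ hr
    exact Finset.mem_image.2 ⟨i, (Finset.mem_filter.1 hi).1, (Finset.mem_filter.1 hi).2⟩
  have h1 := mom_poly s ω (fun i => -(col i : ℝ)) (-β) b
    (fun j hj => by simpa only [sub_neg_eq_add, neg_add_eq_sub] using h j hj)
    (∏ u ∈ (s.image col).erase r, (X - C (-(u : ℝ)))) (by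
      rw [degree_prod]
      simp only [degree_X_sub_C, Finset.sum_const, nsmul_eq_mul, mul_one, Nat.cast_lt]
      have := Finset.card_erase_lt_of_mem hr
      omega)
  simp only [eval_prod, eval_sub, eval_X, eval_C] at h1
  have h2 : ∏ u ∈ (s.image col).erase r, (-(r : ℝ) - -(u : ℝ)) ≠ 0 :=
    Finset.prod_ne_zero_iff.2 fun u hu h => (Finset.mem_erase.1 hu).1
      (Nat.cast_injective (R := ℝ) (by linarith))
  refine (mul_eq_zero.1 ?_).resolve_right h2
  rw [← h1, Finset.sum_mul, Finset.sum_filter]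
  refine Finset.sum_congr rfl fun i hi => ?_
  split_ifs with h3
  · rw [h3]
  · rw [Finset.prod_eq_zero (Finset.mem_erase.2 ⟨h3, Finset.mem_image_of_mem _ hi⟩) (sub_self _),
      mul_zero]

end Pool.Agent.Lib.MP_9087e4_co.Mx
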