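import Mathlib
import Pool.Agent.Lib.MP_9087e4_co.Lov
import Pool.Agent.Lib.MP_9087e4_co.Mx.Mom

set_option autoImplicit false

namespace Pool.Agent.Lib.MP_9087e4_co.Mx

open Finset Polynomial

theorem tind_of_col {V : Type} [Fintype V] [DecidableEq V] {g : V → ℝ}
    (hg : AlgebraicIndependent ℚ g) (b : ℕ) (A : Finset V) (P : Finset (V × V))
    (hP : ∀ p ∈ P, p.1 ∈ A ∧ p.2 ∉ A) (col : V → ℕ)
    (h1 : ∀ x, ((nL P x).image col).card ≤ b)
    (h2 : ∀ J : Finset V, J.Nonempty → (∀ w ∈ J, ∀ w' ∈ J, col w = col w') →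
      ∑ w ∈ J, (nR P w).card + b ≤ (J.biUnion (nR P)).card + b * J.card) : TInd b P := by
  refine ⟨fun v => if v ∈ A then g v else col v, ind_iff.2 fun ω hω p0 hp0 => ?_⟩
  have key : ∀ v, ∀ j < b, ∑ w ∈ nL P v, ω (v, w) * (g v - col w) ^ j -
      ∑ x ∈ nR P v, ω (x, v) * (g x - col v) ^ j = 0 := by
    intro v j hj
    have h3 := congrFun hω (v, ⟨j, hj⟩)
    simp only [Finset.sum_apply, Pi.smul_apply, smul_eq_mul, Pi.zero_apply, tRow, mul_sub,
      Finset.sum_sub_distrib, mul_ite, mul_zero] at h3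
    rw [← h3, ← Finset.sum_filter, ← Finset.sum_filter]
    congr 1
    · refine Finset.sum_bij (fun w _ => (v, w)) (fun w hw => by simpa using hw)
        (fun _ _ _ _ h => (Prod.ext_iff.1 h).2) (fun p hp => ?_) fun w hw => ?_
      · obtain ⟨hp, rfl⟩ := Finset.mem_filter.1 hp
        exact ⟨p.2, by simpa using hp, rfl⟩
      · have := hP _ (mem_nL.1 hw)
        simp only [if_pos this.1, if_neg this.2]
    · refine Finset.sum_bij (fun x _ => (x, v)) (fun w hw => by simpa using hw)
        (fun _ _ _ _ h => (Prod.ext_iff.1 h).1) (fun p hp => ?_) fun w hw => ?_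
      · obtain ⟨hp, rfl⟩ := Finset.mem_filter.1 hp
        exact ⟨p.1, by simpa using hp, rfl⟩
      · have := hP _ (mem_nR.1 hw)
        simp only [if_pos this.1, if_neg this.2]
  have hL : ∀ v, ∀ j < b, ∑ w ∈ nL P v, ω (v, w) * (g v - col w) ^ j = 0 := by
    intro v j hj
    by_cases hv : v ∈ A
    · have := key v j hj
      rwa [Finset.sum_eq_zero (s := nR P v) fun x hx => absurd hv (hP _ (mem_nR.1 hx)).2,
        sub_zero] at this
    · exact Finset.sum_eq_zero fun w hw => absurd (hP _ (mem_nL.1 hw)).1 hv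
  have hR : ∀ v, ∀ j < b, ∑ x ∈ nR P v, ω (x, v) * (g x - col v) ^ j = 0 := by
    intro v j hj
    have := key v j hj
    rwa [hL v j hj, zero_sub, neg_eq_zero] at this
  have := lov_rs (fun w => if col w = col p0.2 then nR P w else ∅) b (fun J hJ hb => by
      have hc : ∀ w ∈ J, col w = col p0.2 := fun w hw => by
        by_contra hne
        simpa [hne] using hb w hw
      rw [Finset.sum_congr rfl fun w hw => by rw [if_pos (hc w hw)],
        Finset.biUnion_congr rfl fun w hw => if_pos (hc w hw)]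
      exact h2 J hJ fun w hw w' hw' => (hc w hw).trans (hc w' hw').symm) hg
    (fun x w => if (x, w) ∈ P ∧ col w = col p0.2 then ω (x, w) else 0)
    (fun x w hx => if_neg fun h => hx (by simp [h.1, h.2]))
    (fun x => by
      rw [← Finset.sum_filter, ← colour_sum (nL P x) (fun w => ω (x, w)) col (g x) b (h1 x)
        (hL x) (col p0.2)]
      exact Finset.sum_congr (by ext w; simp) fun _ _ => rfl)
    (fun w j hj => by
      by_cases hw : col w = col p0.2
      · have h4 := mom_poly (nR P w) (fun x => ω (x, w)) g (col w) b (hR w) (X ^ j)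
          (by rw [degree_X_pow]; exact_mod_cast hj)
        simp only [eval_pow, eval_X] at h4
        simp only [hw, and_true, ite_mul, zero_mul]
        rw [← Finset.sum_filter]
        exact h4
      · simp [hw]) p0.1 p0.2
  simpa [hp0] using this

end Pool.Agent.Lib.MP_9087e4_co.Mx
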