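import Mathlib
import Pool.Agent.Lib.MP_9087e4_co.Mx.Defs2

set_option autoImplicit false

namespace Pool.Agent.Lib.MP_9087e4_co.Mx

open Finset Polynomial Pool.Agent.Lib.MP_f8e628_co

theorem exists_gen (σ : Type) [Fintype σ] : ∃ a : σ → ℝ, AlgebraicIndependent ℚ a := by
  obtain ⟨ι, x, hx⟩ := exists_isTranscendenceBasis'.{0} ℚ ℝ
  have hinf : Infinite ι := by
    by_contra hc
    rw [not_infinite_iff_finite] at hc
    have h1 : Algebra.IsAlgebraic (Algebra.adjoin ℚ (Set.range x)) ℝ := hx.isAlgebraic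
    have h0 : Countable (MvPolynomial ι ℚ) := by
      rw [← Cardinal.mk_le_aleph0_iff]
      exact MvPolynomial.cardinalMk_le_max.trans
        (max_le (max_le Cardinal.mk_le_aleph0 Cardinal.mk_le_aleph0) le_rfl)
    have h2 : Countable (Algebra.adjoin ℚ (Set.range x)) :=
      hx.1.aevalEquiv.toEquiv.countable_iff.1 h0
    have h3 := Algebra.IsAlgebraic.cardinalMk_le_max (Algebra.adjoin ℚ (Set.range x)) ℝ
    rw [max_eq_right Cardinal.mk_le_aleph0, Cardinal.mk_real] at h3
    exact absurd Cardinal.aleph0_lt_continuum (not_lt.2 h3)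
  let e : σ ↪ ι := ((Fintype.equivFin σ).toEmbedding.trans Fin.valEmbedding).trans
    (Infinite.natEmbedding ι)
  exact ⟨x ∘ e, hx.1.comp e e.injective⟩

variable {V : Type} [Fintype V] [LinearOrder V] {d : ℕ} {F F' : Finset (Sym2 V)}

theorem RInd.gen {p : V → Fin d → ℝ} (hp : Generic p) (h : RInd d F) : Ind (rigRow p) F := by
  obtain ⟨y, hy⟩ := h
  have := gen_ind hp (fun c => y c.1 c.2) (rigRow (XX V d)) F
    (by simpa only [aeval_rigRow] using hy)
  simpa only [aeval_rigRow] using this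

theorem RInd.mono (h : RInd d F') (hF : F ⊆ F') : RInd d F := by
  exact h.imp fun _ h => h.mono hF

theorem RInd.ext_zero {v : V} {N : Finset V} (hv : v ∉ N) (hF : ∀ e ∈ F, v ∉ e)
    (hN : N.card ≤ d) (h : RInd d F) : RInd d (F ∪ Pool.Agent.Lib.MP_9087e4_co.star v N) := by
  obtain ⟨a, ha⟩ := exists_gen (V × Fin d)
  let p : V → Fin d → ℝ := fun x i => a (x, i)
  have hp : Generic p := ha
  refine ⟨p, ind_iff.2 fun ω hω => ?_⟩
  rw [sum_union (disjoint_star hF), sum_star] at hω
  have hblk : ∀ f ∈ F, ∀ s : Fin d, rigRow p f (v, s) = 0 := by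
    intro f hf s
    have hv' := hF f hf
    induction f using Sym2.ind with
    | _ i j =>
      simp only [Sym2.mem_iff, not_or] at hv'
      simp [rigRow, hv'.1, hv'.2]
  have h1 : ∀ s : Fin d, ∑ b ∈ N, ω s(v, b) * (p v s - p b s) = 0 := fun s => by
    have h2 := congrFun hω (v, s)
    rw [Pi.add_apply, Finset.sum_apply, Finset.sum_apply, sum_eq_zero (s := F), zero_add] at h2
    · refine Eq.trans (sum_congr rfl fun b hb => ?_) h2
      have hb' : v ≠ b := fun h' => hv (h' ▸ hb)
      simp [rigRow, hb']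
    · intro f hf
      rw [Pi.smul_apply, hblk f hf s, smul_zero]
  have h3 := ind_iff.1 (hp.ind_homd (B := insert v N) (by rw [card_insert_of_notMem hv]; omega))
    (fun b => if b = v then -∑ b ∈ N, ω s(v, b) else ω s(v, b)) (by
      have h4 : ∀ b ∈ N, (if b = v then -∑ b ∈ N, ω s(v, b) else ω s(v, b)) • homd p b =
          ω s(v, b) • homd p b := fun b hb => by rw [if_neg fun h' : b = v => hv (h' ▸ hb)]
      rw [sum_insert hv, if_pos rfl, sum_congr rfl h4]
      funext s
      rw [Pi.add_apply, Finset.sum_apply]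
      refine Fin.cases ?_ (fun i => ?_) s
      · simp [homd]
      · have h5 := h1 i
        simp only [mul_sub, sum_sub_distrib, ← sum_mul] at h5
        simp only [homd, Pi.smul_apply, Fin.cons_succ, smul_eq_mul, Pi.zero_apply]
        linarith)
  have h6 : ∀ b ∈ N, ω s(v, b) = 0 := fun b hb => by
    have := h3 b (mem_insert_of_mem hb)
    rwa [if_neg fun h' : b = v => hv (h' ▸ hb)] at this
  rw [sum_eq_zero (s := N) fun b hb => by rw [h6 b hb, zero_smul], add_zero] at hω
  intro e he
  rcases mem_union.1 he with he | he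
  · exact ind_iff.1 (h.gen hp) ω hω e he
  · obtain ⟨b, hb, rfl⟩ := mem_star.1 he
    exact h6 b hb

end Pool.Agent.Lib.MP_9087e4_co.Mx
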