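import Mathlib
import Pool.Agent.Lib.MP_9087e4_co.Mx.Col2
import Pool.Agent.Lib.MP_9087e4_co.Mx.Count
import Pool.Agent.Lib.MP_9087e4_co.Mx.Det
import Pool.Agent.Lib.MP_9087e4_co.Mx.Gen

set_option autoImplicit false

namespace Pool.Agent.Lib.MP_9087e4_co.Mx

open Finset Polynomial Pool.Agent.Lib.MP_f8e628_co

theorem tind2 (c η : ℝ) (hc : 0 < c) (hη : 0 < η) :
    ∃ δ : ℝ, 0 < δ ∧ ∃ D0 : ℕ, ∀ D : ℕ, D0 ≤ D → ∀ ρ : ℝ, c * D ≤ ρ →
      ∀ (V : Type) [Fintype V] [DecidableEq V] (A : Finset V) (P : Finset (V × V)),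
      (∀ p ∈ P, p.1 ∈ A ∧ p.2 ∉ A) → (∀ x, (nL P x).card ≤ D) → (∀ w, (nR P w).card ≤ D) →
      HarmP P ρ → (∀ w w', w ≠ w' → ((nR P w ∩ nR P w').card : ℝ) ≤ δ * D) →
      ∀ b : ℕ, ρ + η * D ≤ b → TInd b P := by
  obtain ⟨δ, hδ, D0, h⟩ := colouring2 c (η / 2) hc (by positivity)
  refine ⟨min δ η, lt_min hδ hη, max D0 1, fun D hD ρ hρ V _ _ A P hP hL hR hH hc b hb => ?_⟩
  have hD1 : (1 : ℝ) ≤ D := by exact_mod_cast le_of_max_le_right hD
  obtain ⟨g, hg⟩ := exists_gen V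
  obtain ⟨col, h1, h2⟩ := h D (le_of_max_le_left hD) ρ hρ V P hL hR hH fun w w' hw =>
    (hc w w' hw).trans (mul_le_mul_of_nonneg_right (min_le_left _ _) (by linarith))
  refine tind_of_col hg b A P hP col (fun x => ?_)
    (count_of_pay P col b (η / 2 * D) (η * D) (by positivity) (by linarith) (fun w w' hw =>
      (hc w w' hw).trans (mul_le_mul_of_nonneg_right (min_le_right _ _) (by linarith)))
      fun w => by linarith [h2 w])
  have : (((nL P x).image col).card : ℝ) ≤ b := by nlinarith [h1 x]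
  exact_mod_cast this

end Pool.Agent.Lib.MP_9087e4_co.Mx
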