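import Mathlib
import Pool.Agent.Lib.MP_9087e4_co.Mx.Gen

set_option autoImplicit false

namespace Pool.Agent.Lib.MP_9087e4_co.Mx

open Finset Polynomial Pool.Agent.Lib.MP_f8e628_co

variable {V : Type} [Fintype V] [LinearOrder V]

theorem Harm.mono {F F' : Finset (Sym2 V)} {ρ : ℝ} (h : Harm F ρ) (hF : F' ⊆ F) : Harm F' ρ := by
  intro u v he
  have := harm_scale (t := 1) (a := (nb F' u).card) (b := (nb F' v).card)
    (Nat.cast_pos.2 (card_pos.2 ⟨v, mem_nb.2 he⟩))
    (Nat.cast_pos.2 (card_pos.2 ⟨u, mem_nb_comm.1 (mem_nb.2 he)⟩)) one_pos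
    (by rw [one_mul]; exact Nat.cast_le.2 (card_le_card (nb_mono hF u)))
    (by rw [one_mul]; exact Nat.cast_le.2 (card_le_card (nb_mono hF v))) (h u v (hF he))
  rwa [one_mul] at this

/-- vertices of degree at most the dimension can be removed -/
theorem peel (k : ℕ) (ρ κ : ℝ)
    (hcore : ∀ F : Finset (Sym2 V), (∀ e ∈ F, ¬ e.IsDiag) → Harm F ρ →
      (∀ u v, u ≠ v → ((nb F u ∩ nb F v).card : ℝ) ≤ κ) →
      (∀ u v, s(u, v) ∈ F → k + 1 < (nb F u).card) → GInd k F ∧ RInd (k + 1) F)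
    (F : Finset (Sym2 V)) : (∀ e ∈ F, ¬ e.IsDiag) → Harm F ρ →
      (∀ u v, u ≠ v → ((nb F u ∩ nb F v).card : ℝ) ≤ κ) → GInd k F ∧ RInd (k + 1) F := by
  obtain ⟨q, hq⟩ := exists_gen (V × Fin 2)
  have hq' : Generic fun v j => q (v, j) := hq
  induction F using Finset.strongInduction with
  | H F ih =>
    intro hF hH hc
    by_cases h : ∀ u v, s(u, v) ∈ F → k + 1 < (nb F u).card
    · exact hcore F hF hH hc h
    push Not at h
    obtain ⟨v, a, ha, hv⟩ := h
    have h1 := ih (del F v) (Finset.ssubset_iff_subset_ne.2 ⟨del_subset, fun h =>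
        del_notMem s(v, a) (by rw [h]; exact ha) (by simp)⟩)
      (fun e he => hF e (del_subset he)) (hH.mono del_subset) fun u w huw =>
        (Nat.cast_le.2 (card_le_card (inter_subset_inter (nb_mono del_subset u)
          (nb_mono del_subset w)))).trans (hc u w huw)
    rw [← del_union_star F v]
    exact ⟨hq'.reg.ext_zero (notMem_nb hF) del_notMem hv h1.1,
      h1.2.ext_zero (notMem_nb hF) del_notMem hv⟩

end Pool.Agent.Lib.MP_9087e4_co.Mx
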