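import Mathlib
import Pool.Agent.Lib.MP_9087e4_co.Mx.Gen
import Pool.Agent.Lib.MP_9087e4_co.Mx.Mom

set_option autoImplicit false

namespace Pool.Agent.Lib.MP_9087e4_co.Mx

open Finset Polynomial Pool.Agent.Lib.MP_f8e628_co

/-- coordinates extended by zero -/
def rsU {V R : Type} [CommRing R] {c : ℕ} (u : V × Fin c → R) (v : V) (i : ℕ) : R :=
  if h : i < c then u (v, ⟨i, h⟩) else 0

/-- the row of the bipartite system -/
def rsG {V R : Type} [DecidableEq V] [CommRing R] {c : ℕ} (b : ℕ) (u : V × Fin c → R)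
    (p : V × V) (z : V × Fin b) : R :=
  (if z.1 = p.1 then if (z.2 : ℕ) = 0 then 1 else rsU u p.2 (z.2 - 1) else 0) +
    if z.1 = p.2 then if (z.2 : ℕ) = 0 then 1 else rsU u p.1 (z.2 - 1) else 0

theorem rsG_aeval {V : Type} [DecidableEq V] {c : ℕ} (b : ℕ) (u : V × Fin c → ℝ) (p : V × V)
    (z : V × Fin b) :
    MvPolynomial.aeval u (rsG (R := MvPolynomial (V × Fin c) ℚ) b MvPolynomial.X p z) =
      rsG b u p z := by
  simp only [rsG, rsU]
  split_ifs <;> simp

theorem rsG_ind {V : Type} [Fintype V] [DecidableEq V] {c b : ℕ} (hb : b ≤ c + 1) {A : Finset V}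
    {P : Finset (V × V)} (hP : ∀ p ∈ P, p.1 ∈ A ∧ p.2 ∉ A) (h2 : TInd b P) {u : V × Fin c → ℝ}
    (hu : AlgebraicIndependent ℚ u) : Ind (rsG b u) P := by
  obtain ⟨a, ha⟩ := h2
  have := gen_ind hu (fun z => a z.1 ^ ((z.2 : ℕ) + 1)) (rsG b MvPolynomial.X) P (by
    simp only [rsG_aeval]
    refine ind_iff.2 fun ω hω => ind_iff.1 ha ω (funext fun z => ?_)
    have e : ∀ (v : V) (j : ℕ), j < b → (if j = 0 then 1 else
        rsU (fun z : V × Fin c => a z.1 ^ ((z.2 : ℕ) + 1)) v (j - 1)) = a v ^ j := by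
      intro v j hj
      rcases j with _ | j
      · simp
      · simp [rsU, show j < c by omega]
    have h3 := fun j (hj : j < b) => congrFun hω (z.1, ⟨j, hj⟩)
    simp only [Finset.sum_apply, Pi.smul_apply, smul_eq_mul, Pi.zero_apply, rsG, tRow] at h3 ⊢
    have hd : ∀ f : ℝ[X], f.natDegree ≤ 1 → (f ^ (z.2 : ℕ)).degree < b := fun f hf =>
      degree_le_natDegree.trans_lt (by
        exact_mod_cast (natDegree_pow_le_of_le _ hf).trans_lt (by simp))
    by_cases hz : z.1 ∈ A
    · have h4 := mom_poly (P.filter fun p => z.1 = p.1) ω (fun p => a p.2) 0 b (fun j hj => by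
        refine Eq.trans ?_ (h3 j hj)
        rw [Finset.sum_filter]
        refine Finset.sum_congr rfl fun p hp => ?_
        rw [if_neg (show z.1 ≠ p.2 from fun h => (hP p hp).2 (h ▸ hz)), e _ _ hj]
        split_ifs <;> simp) _ (hd (C (a z.1) - X) (by compute_degree))
      refine Eq.trans ?_ h4
      rw [Finset.sum_filter]
      refine Finset.sum_congr rfl fun p hp => ?_
      rw [if_neg (show z.1 ≠ p.2 from fun h => (hP p hp).2 (h ▸ hz))]
      split_ifs with h <;> simp [h]
    · have h4 := mom_poly (P.filter fun p => z.1 = p.2) ω (fun p => a p.1) 0 b (fun j hj => by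
        refine Eq.trans ?_ (h3 j hj)
        rw [Finset.sum_filter]
        refine Finset.sum_congr rfl fun p hp => ?_
        rw [if_neg (show z.1 ≠ p.1 from fun h => hz (h ▸ (hP p hp).1)), e _ _ hj]
        split_ifs <;> simp) _ (hd (X - C (a z.1)) (by compute_degree))
      refine neg_eq_zero.1 (Eq.trans ?_ h4)
      rw [Finset.sum_filter, ← Finset.sum_neg_distrib]
      refine Finset.sum_congr rfl fun p hp => ?_
      rw [if_neg (show z.1 ≠ p.1 from fun h => hz (h ▸ (hP p hp).1))]
      split_ifs with h <;> simp [h])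
  simpa only [rsG_aeval] using this

/-- the positions -/
def rsP {V : Type} [DecidableEq V] {c : ℕ} (b : ℕ) (A : Finset V) (u : V × Fin c → ℝ) (v : V)
    (m : Fin (c + (b + 1))) : ℝ :=
  if v ∈ A then if (m : ℕ) = c then 1 else rsU u v m
  else if (m : ℕ) < b then 0 else if (m : ℕ) ≤ c then rsU u v m else rsU u v (m - (c + 1))

theorem rsplit {V : Type} [Fintype V] [LinearOrder V] (c b : ℕ) (hb0 : 1 ≤ b) (hb : b ≤ c + 1)
    (A : Finset V) (F : Finset (Sym2 V)) (P : Finset (V × V))
    (hF : ∀ u v, s(u, v) ∈ F → u ≠ v ∧ (u ∈ A ↔ v ∈ A)) (hP : ∀ p ∈ P, p.1 ∈ A ∧ p.2 ∉ A)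
    (h1 : RInd c F) (h2 : TInd b P) : RInd (c + b) (F ∪ P.image fun p => s(p.1, p.2)) := by
  obtain ⟨b, rfl⟩ : ∃ b', b = b' + 1 := ⟨b - 1, by omega⟩
  obtain ⟨u, hu⟩ := exists_gen (V × Fin c)
  have g1 := ind_iff.1 (RInd.gen (p := fun v i => u (v, i)) hu h1)
  have g2 := ind_iff.1 (rsG_ind hb hP h2 hu)
  refine ⟨rsP b A u, ind_iff.2 fun ω hω => ?_⟩
  have hd : Disjoint F (P.image fun p => s(p.1, p.2)) := by
    rw [Finset.disjoint_right]
    intro e he he'
    obtain ⟨p, hp, rfl⟩ := Finset.mem_image.1 he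
    exact (hP p hp).2 ((hF _ _ he').2.1 (hP p hp).1)
  have hinj : Set.InjOn (fun p : V × V => s(p.1, p.2)) P := by
    intro p hp p' hp' h
    rcases Sym2.eq_iff.1 h with h | h
    · exact Prod.ext h.1 h.2
    · exact absurd (h.1 ▸ (hP p hp).1) (hP p' hp').2
  rw [Finset.sum_union hd, Finset.sum_image hinj] at hω
  have U0 : ∀ v i, c ≤ i → rsU u v i = 0 := fun v i h => dif_neg (by omega)
  have s2 := g2 (fun p => ω s(p.1, p.2)) (by
    funext ⟨v, j, hj⟩
    have h3 := congrFun hω (v, ⟨if v ∈ A ∨ j = 0 then c + j else j - 1, by split_ifs <;> omega⟩)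
    simp only [Finset.sum_apply, Pi.smul_apply, smul_eq_mul, Pi.zero_apply, Pi.add_apply] at h3 ⊢
    rw [Finset.sum_eq_zero (s := F), zero_add] at h3
    · rw [← mul_zero (if v ∈ A ∧ j = 0 then (1 : ℝ) else -1), ← h3, Finset.mul_sum]
      refine Finset.sum_congr rfl fun p hp => ?_
      obtain ⟨h4, h5⟩ := hP p hp
      simp only [rigRow, Sym2.lift_mk, rsG, rsP, h4, h5, if_true, if_false]
      by_cases hv : v ∈ A
      · have h6 : v ≠ p.2 := fun h => h5 (h ▸ hv)
        rcases j with _ | j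
        · simp [hv, h6, U0, show ¬ c < b by omega]
        · simp [hv, h6, U0, show ¬ c + (j + 1) < b by omega, show c + (j + 1) - (c + 1) = j by omega]
      · have h6 : v ≠ p.1 := fun h => hv (h ▸ h4)
        rcases j with _ | j
        · simp [hv, h6, U0, show ¬ c < b by omega]
        · simp [hv, h6, show j < b by omega, show j ≠ c by omega]
    · intro e he
      induction e using Sym2.ind with
      | _ x y =>
        have h4 := (hF x y he).2
        refine mul_eq_zero_of_right _ ?_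
        have key : ∀ x y : V, (x ∈ A ↔ y ∈ A) → v = x →
            rsP b A u x ⟨if v ∈ A ∨ j = 0 then c + j else j - 1, by split_ifs <;> omega⟩ =
            rsP b A u y ⟨if v ∈ A ∨ j = 0 then c + j else j - 1, by split_ifs <;> omega⟩ := by
          rintro x y h rfl
          by_cases hv : v ∈ A
          · simp [rsP, hv, h.1 hv, U0]
          · rcases j with _ | j
            · simp [rsP, hv, mt h.2 hv, U0]
            · simp [rsP, hv, mt h.2 hv, show j < b by omega]
        simp only [rigRow, Sym2.lift_mk]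
        rw [ite_eq_right_iff.2 fun h => sub_eq_zero.2 (key x y h4 h),
          ite_eq_right_iff.2 fun h => sub_eq_zero.2 (key y x h4.symm h), add_zero])
  rw [Finset.sum_eq_zero (s := P) (fun p hp => by rw [s2 p hp, zero_smul]), add_zero] at hω
  have s1 := g1 ω (by
    funext ⟨v, i, hi⟩
    have h3 := congrFun hω (v, ⟨if v ∉ A ∧ i < b then c + 1 + i else i, by split_ifs <;> omega⟩)
    simp only [Finset.sum_apply, Pi.smul_apply, smul_eq_mul, Pi.zero_apply] at h3 ⊢
    rw [← h3]
    refine Finset.sum_congr rfl fun e he => congrArg _ ?_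
    have key : ∀ x : V, (x ∈ A ↔ v ∈ A) →
        rsP b A u x ⟨if v ∉ A ∧ i < b then c + 1 + i else i, by split_ifs <;> omega⟩ =
          u (x, ⟨i, hi⟩) := by
      intro x h
      by_cases hv : v ∈ A
      · simp [rsP, hv, h.2 hv, hi.ne, rsU, hi]
      · by_cases h5 : i < b
        · simp [rsP, hv, mt h.1 hv, h5, rsU, hi, show ¬ c + 1 + i < b by omega,
            show ¬ c + 1 + i ≤ c by omega]
        · simp [rsP, hv, mt h.1 hv, h5, rsU, hi, hi.le]
    induction e using Sym2.ind with
    | _ x y =>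
      have h4 := (hF x y he).2
      simp only [rigRow, Sym2.lift_mk]
      congr 1 <;> refine ite_congr rfl (fun h => ?_) fun _ => rfl
      · rw [key x (h ▸ Iff.rfl), key y (h ▸ h4.symm)]
      · rw [key y (h ▸ Iff.rfl), key x (h ▸ h4)])
  intro e he
  rcases Finset.mem_union.1 he with he | he
  · exact s1 e he
  · obtain ⟨p, hp, rfl⟩ := Finset.mem_image.1 he
    exact s2 p hp

end Pool.Agent.Lib.MP_9087e4_co.Mx
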