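import Mathlib
import Pool.Agent.Lib.MP_9087e4_co.Mx.Defs

set_option autoImplicit false

namespace Pool.Agent.Lib.MP_9087e4_co.Mx

open Finset Filter Topology

variable {V : Type} [LinearOrder V]

/-- the two clusters of lines -/
noncomputable def qt (q : V → Fin 2 → ℝ) (A : Finset V) (t : ℝ) (v : V) : Fin 2 → ℝ :=
  ![q v 0, (if v ∈ A then 1 else 0) + t * q v 1]

/-- the scaled vector of an edge -/
noncomputable def vec (q : V → Fin 2 → ℝ) (A : Finset V) (K c : ℕ) (t : ℝ) (i j : V) (m : ℕ) : ℝ :=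
  if (i ∈ A ↔ j ∈ A) then (q i 0 - q j 0) ^ (K - m) * (q i 1 - q j 1) ^ m * t ^ (m - c)
  else (q i 0 - q j 0) ^ (K - m) * (qt q A t i 1 - qt q A t j 1) ^ m * t ^ (c - m)

/-- the scaled row of an edge -/
noncomputable def sRow (q : V → Fin 2 → ℝ) (A : Finset V) (K c : ℕ) (t : ℝ) (e : Sym2 V) :
    V × Fin (K + 1) → ℝ :=
  fun z => (if z.1 = e.inf then vec q A K c t e.inf e.sup z.2 else 0) -
    (if z.1 = e.sup then vec q A K c t e.inf e.sup z.2 else 0)

theorem vec_scale (q : V → Fin 2 → ℝ) (A : Finset V) (K c : ℕ) (t : ℝ) (i j : V)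
    (m : Fin (K + 1)) :
    (if (i ∈ A ↔ j ∈ A) then 1 else t ^ c) * cofVec K (qt q A t) i j m =
      t ^ min (m : ℕ) c * vec q A K c t i j m := by
  unfold vec cofVec
  split_ifs with h
  · have h1 : qt q A t i 1 - qt q A t j 1 = t * (q i 1 - q j 1) := by
      by_cases hi : i ∈ A
      · simp [qt, hi, h.1 hi]; ring
      · simp [qt, hi, mt h.2 hi]; ring
    have h2 : t ^ (m : ℕ) = t ^ min (m : ℕ) c * t ^ ((m : ℕ) - c) := by
      rw [← pow_add]; congr 1; omega
    rw [h1, mul_pow, h2]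
    simp only [qt, Matrix.cons_val_zero]
    ring
  · have h2 : t ^ c = t ^ min (m : ℕ) c * t ^ (c - (m : ℕ)) := by
      rw [← pow_add]; congr 1; omega
    rw [h2]
    simp only [qt, Matrix.cons_val_zero]
    ring

theorem ind_of_sRow (q : V → Fin 2 → ℝ) (A : Finset V) (K c : ℕ) {t : ℝ} (ht : t ≠ 0)
    (E : Finset (Sym2 V)) (h : Ind (sRow q A K c t) E) : Ind (cofRow K (qt q A t)) E := by
  rw [ind_iff] at h ⊢
  intro ω hω e he
  let ρ : Sym2 V → ℝ := fun e => if (e.inf ∈ A ↔ e.sup ∈ A) then 1 else t ^ c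
  have hρ : ∀ e, ρ e ≠ 0 := fun e => by
    simp only [ρ]; split_ifs
    exacts [one_ne_zero, pow_ne_zero _ ht]
  have h1 := h (fun e => ω e / ρ e) (by
    funext z
    have h2 := congrFun hω z
    simp only [Finset.sum_apply, Pi.smul_apply, smul_eq_mul, Pi.zero_apply] at h2 ⊢
    refine (mul_eq_zero.1 ?_).resolve_left (pow_ne_zero (min (z.2 : ℕ) c) ht)
    rw [Finset.mul_sum, ← h2]
    refine Finset.sum_congr rfl fun e _ => ?_
    have h3 : ρ e * cofVec K (qt q A t) e.inf e.sup z.2 = _ := vec_scale q A K c t e.inf e.sup z.2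
    have h4 : ρ e * cofRow K (qt q A t) e z = t ^ min (z.2 : ℕ) c * sRow q A K c t e z := by
      simp only [cofRow, cofRowOrd, sRow, mul_sub, mul_ite, mul_zero, h3]
    have h5 := hρ e
    field_simp
    linear_combination (-ω e) * h4) e he
  exact (div_eq_zero_iff.1 h1).resolve_right (hρ e)

theorem sRow_cross (q : V → Fin 2 → ℝ) (A : Finset V) (k b : ℕ) {x w : V} (hx : x ∈ A)
    (hw : w ∉ A) : ∃ σ : ℝ, σ ≠ 0 ∧ ∀ (v : V) (j : Fin b),
      sRow q A (k + b) (k + 1) 0 s(x, w) (v, ⟨k + b - j, by omega⟩) =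
        σ * tRow b (fun v => q v 0) (x, w) (v, j) := by
  have hxw : x ≠ w := fun h => hw (h ▸ hx)
  have e1 : ∀ j : Fin b, k + b - (k + b - j) = j := fun j => by omega
  have e2 : ∀ j : Fin b, k + 1 - (k + b - j) = 0 := fun j => by omega
  rcases lt_or_gt_of_ne hxw with h | h
  · refine ⟨1, one_ne_zero, fun v j => ?_⟩
    simp [sRow, tRow, vec, qt, h.le, hx, hw, e1, e2]
  · refine ⟨-(-1) ^ (k + b), by simp, fun v j => ?_⟩
    have e3 : (q w 0 - q x 0) ^ (j : ℕ) * (-1) ^ (k + b - j) =
        (-1) ^ (k + b) * (q x 0 - q w 0) ^ (j : ℕ) := by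
      have : k + b = (k + b - j) + j := by omega
      conv_rhs => rw [this, pow_add, mul_assoc, ← mul_pow]
      rw [mul_comm]; congr 2; ring
    simp only [sRow, tRow, vec, qt, Sym2.inf_mk, Sym2.sup_mk, inf_of_le_right h.le,
      sup_of_le_left h.le, hx, hw, e1, e2, iff_true, if_false, if_true, Matrix.cons_val_one,
      Matrix.cons_val_zero, zero_mul, add_zero, zero_sub, pow_zero, mul_one, e3]
    split_ifs <;> ring

theorem mk_inf_sup (e : Sym2 V) : s(e.inf, e.sup) = e := by
  induction e using Sym2.ind with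
  | _ u v => rcases le_total u v with h | h <;> simp [h]

theorem aeval_tRow (b : ℕ) (q : V → Fin 2 → ℝ) (p : V × V) (c : V × Fin b) :
    MvPolynomial.aeval (fun c : V × Fin 2 => q c.1 c.2) (tRow b (fun v => XX V 2 v 0) p c) =
      tRow b (fun v => q v 0) p c := by
  simp only [tRow, XX]
  split_ifs <;> simp

theorem split [Fintype V] {q : V → Fin 2 → ℝ} (hq : Generic q)
    (k b : ℕ) (A : Finset V) (F : Finset (Sym2 V)) (P : Finset (V × V))
    (hF : ∀ u v, s(u, v) ∈ F → u ≠ v ∧ (u ∈ A ↔ v ∈ A)) (hP : ∀ p ∈ P, p.1 ∈ A ∧ p.2 ∉ A)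
    (h1 : GInd k F) (h2 : TInd b P) : GInd (k + b) (F ∪ P.image fun p => s(p.1, p.2)) := by
  have h1' := ind_iff.1 ((hq.reg (k := k)).ind F h1)
  have h2' : Ind (tRow b fun v => q v 0) P := by
    obtain ⟨a, ha⟩ := h2
    have := gen_ind hq (fun c => a c.1) (tRow b fun v => XX V 2 v 0) P
      (by simpa only [aeval_tRow b fun v _ => a v] using ha)
    simpa only [aeval_tRow] using this
  have hF' : ∀ e ∈ F, e.inf ≠ e.sup ∧ (e.inf ∈ A ↔ e.sup ∈ A) := fun e he =>
    hF _ _ (by rwa [mk_inf_sup])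
  set E := F ∪ P.image fun p => s(p.1, p.2) with hE
  have h0 : Ind (sRow q A (k + b) (k + 1) 0) E := by
    rw [ind_iff]
    intro ω hω
    have hd : Disjoint F (P.image fun p => s(p.1, p.2)) := by
      rw [Finset.disjoint_right]
      intro e he he'
      obtain ⟨p, hp, rfl⟩ := Finset.mem_image.1 he
      exact (hP p hp).2 ((hF _ _ he').2.1 (hP p hp).1)
    have hinj : Set.InjOn (fun p : V × V => s(p.1, p.2)) P := by
      intro p hp p' hp' h
      rcases Sym2.eq_iff.1 h with h | h
      · exact Prod.ext h.1 h.2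
      · exact absurd (h.1 ▸ (hP p hp).1) (hP p' hp').2
    rw [hE, Finset.sum_union hd, Finset.sum_image hinj] at hω
    have s1 : ∀ e ∈ F, ω e = 0 := by
      intro e he
      have := h1' (fun e => ω e * (q e.inf 0 - q e.sup 0) ^ b) (by
        funext z
        have h3 := congrFun hω (z.1, ⟨z.2, by omega⟩)
        simp only [Finset.sum_apply, Pi.smul_apply, smul_eq_mul, Pi.zero_apply, Pi.add_apply]
          at h3 ⊢
        rw [Finset.sum_eq_zero (s := P), add_zero] at h3
        · rw [← h3]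
          refine Finset.sum_congr rfl fun e he => ?_
          have e1 : k + b - z.2 = b + (k - z.2) := by omega
          have e2 : (z.2 : ℕ) - (k + 1) = 0 := by omega
          simp only [cofRow, cofRowOrd, cofVec, sRow, vec, if_pos (hF' e he).2, e1, e2, pow_add]
          split_ifs <;> ring
        · intro p hp
          have e3 : k + 1 - z.2 ≠ 0 := by omega
          have e4 : ¬ (s(p.1, p.2).inf ∈ A ↔ s(p.1, p.2).sup ∈ A) := by
            rcases le_total p.1 p.2 with h | h <;> simp [h, (hP p hp).1, (hP p hp).2]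
          simp only [sRow, vec, if_neg e4, zero_pow e3]
          simp) e he
      exact (mul_eq_zero.1 this).resolve_right (pow_ne_zero _ (hq.gp.ne _ _ (hF' e he).1))
    rw [Finset.sum_eq_zero (fun e he => by rw [s1 e he, zero_smul]), zero_add] at hω
    choose! σ hσ hσ' using fun p (hp : p ∈ P) => sRow_cross q A k b (hP p hp).1 (hP p hp).2
    have s2 := ind_iff.1 h2' (fun p => ω s(p.1, p.2) * σ p) (by
      funext z
      have h3 := congrFun hω (z.1, ⟨k + b - z.2, by omega⟩)
      simp only [Finset.sum_apply, Pi.smul_apply, smul_eq_mul, Pi.zero_apply] at h3 ⊢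
      rw [← h3]
      exact Finset.sum_congr rfl fun p hp => by rw [hσ' p hp, mul_assoc])
    intro e he
    rcases Finset.mem_union.1 he with he | he
    · exact s1 e he
    · obtain ⟨p, hp, rfl⟩ := Finset.mem_image.1 he
      exact (mul_eq_zero.1 (s2 p hp)).resolve_right (hσ p hp)
  have hc : Continuous fun t : ℝ => fun e : (E : Set (Sym2 V)) => sRow q A (k + b) (k + 1) t e := by
    refine continuous_pi fun e => continuous_pi fun z => ?_
    simp only [sRow, vec, qt, Matrix.cons_val_one, Matrix.cons_val_zero]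
    split_ifs <;> fun_prop
  have h3 := hc.continuousAt.eventually (LinearIndependent.eventually h0)
  obtain ⟨t, ht, ht0⟩ := ((h3.filter_mono nhdsWithin_le_nhds).and
    (self_mem_nhdsWithin (s := {0}ᶜ))).exists
  exact ⟨_, ind_of_sRow q A _ _ ht0 E ht⟩

end Pool.Agent.Lib.MP_9087e4_co.Mx
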