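import Mathlib
import Pool.Agent.Lib.MP_9087e4_co.Mx.Cross2
import Pool.Agent.Lib.MP_9087e4_co.Mx.Bis2
import Pool.Agent.Lib.MP_9087e4_co.Mx.Split
import Pool.Agent.Lib.MP_9087e4_co.Mx.RSplit
import Pool.Agent.Lib.MP_9087e4_co.Mx.Peel

set_option autoImplicit false

namespace Pool.Agent.Lib.MP_9087e4_co.Mx

open Finset Polynomial Pool.Agent.Lib.MP_f8e628_co

theorem good2_step {γ γ' : ℝ} (h0 : 1 < γ) (h1 : (γ + 1) / 2 < γ') (h : Good2 γ) :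
    Good2 γ' := by
  classical
  obtain ⟨μ, hμ⟩ : ∃ μ, μ = (γ' - (γ + 1) / 2) / 2 := ⟨_, rfl⟩
  have μ0 : 0 < μ := by linarith
  have g1 : 1 < γ' := by linarith
  obtain ⟨C, C1, hC⟩ : ∃ C : ℝ, 1 ≤ C ∧ C * (γ' - 1) = γ' :=
    ⟨γ' / (γ' - 1), (one_le_div (by linarith)).2 (by linarith),
      div_mul_cancel₀ _ (by linarith : 0 < γ' - 1).ne'⟩
  have C0 : 0 < C := by linarith
  obtain ⟨η, η0, η1, η2, η4⟩ : ∃ η : ℝ, 0 < η ∧ η ≤ 1 / 2 ∧ η * (γ + 2) ≤ μ ∧ η ≤ γ - 1 :=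
    ⟨min (min (1 / 2) (γ - 1)) (μ / (γ + 2)),
      lt_min (lt_min (by norm_num) (by linarith)) (by positivity),
      (min_le_left _ _).trans (min_le_left _ _),
      (le_div_iff₀ (by positivity)).1 (min_le_right _ _),
      (min_le_left _ _).trans (min_le_right _ _)⟩
  have η3 : (γ + (1 + η)) * (1 / 2 + η) ≤ γ' - μ := by nlinarith
  obtain ⟨d1, d10, r1, H1⟩ := h
  obtain ⟨d2, d20, D2, H2⟩ := tind2 (1 / (2 * C)) (η / (2 * C)) (by positivity) (by positivity)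
  obtain ⟨D3, H3⟩ := bisect2 (η / C) (by positivity)
  refine ⟨min d1 d2 / 2, half_pos (lt_min d10 d20), 2 * |r1| + D2 + D3 + 1 + 1 / μ,
    fun ρ hρ V _ _ F' hF' hH' hco' k hk =>
      peel k ρ (min d1 d2 / 2 * ρ) (fun F hF hH hco hdeg => ?_) F' hF' hH' hco'⟩
  obtain ⟨q, hq0⟩ := exists_gen (V × Fin 2)
  have hq : Generic fun v j => q (v, j) := hq0
  have a1 := abs_nonneg r1
  have a2 := le_abs_self r1
  have a3 : (0 : ℝ) ≤ D2 := Nat.cast_nonneg _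
  have a4 : (0 : ℝ) ≤ D3 := Nat.cast_nonneg _
  have a5 : 0 < 1 / μ := by positivity
  have ρ1 : 1 ≤ ρ := by linarith
  have ρ0 : 0 < ρ := by linarith
  have e2 : 1 ≤ μ * ρ := by
    have a : 1 / μ ≤ ρ := by linarith
    rwa [div_le_iff₀' μ0] at a
  have ρC : ρ ≤ C * ρ := le_mul_of_one_le_left ρ0.le C1
  have ρg : ρ ≤ γ' * ρ := le_mul_of_one_le_left ρ0.le g1.le
  have hlow : ∀ u v, s(u, v) ∈ F → γ' * ρ ≤ (nb F u).card := fun u v he =>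
    hk.trans (by exact_mod_cast (hdeg u v he).le)
  obtain ⟨D, hD⟩ : ∃ D, D = ⌊C * ρ⌋₊ := ⟨_, rfl⟩
  have e3 : (D : ℝ) ≤ C * ρ := hD ▸ Nat.floor_le (by positivity)
  have e4 : C * ρ < D + 1 := hD ▸ Nat.lt_floor_add_one _
  have e5 : D2 ≤ D := hD ▸ Nat.le_floor (by linarith)
  have e6 : D3 ≤ D := hD ▸ Nat.le_floor (by linarith)
  have e7 : (1 : ℝ) ≤ D := by
    have a : 1 ≤ D := hD ▸ Nat.le_floor (by rw [Nat.cast_one]; linarith)
    exact_mod_cast a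
  have hup : ∀ v, (nb F v).card ≤ D := fun v => by
    rcases (nb F v).eq_empty_or_nonempty with a | ⟨w, hw⟩
    · rw [a, card_empty]
      exact Nat.zero_le _
    have b1 := hH v w (mem_nb.1 hw)
    have b2 := hlow w v (mem_nb.1 (mem_nb_comm.1 hw))
    have b3 : (0 : ℝ) ≤ (nb F v).card := Nat.cast_nonneg _
    have b4 : (0 : ℝ) < (nb F w).card := by linarith
    have b5 := mul_le_mul_of_nonneg_left b2 b3
    have b6 := mul_le_mul_of_nonneg_left b1 (by linarith : 0 ≤ γ')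
    have b7 : (γ' - 1) * (nb F v).card ≤ γ' * ρ := le_of_mul_le_mul_right (by linarith) b4
    have b8 : (γ' - 1) * (nb F v).card ≤ (γ' - 1) * (C * ρ) := by
      rw [← mul_assoc, mul_comm (γ' - 1) C, hC]
      exact b7
    exact hD ▸ Nat.le_floor (le_of_mul_le_mul_left b8 (by linarith))
  obtain ⟨A, hA⟩ := H3 D e6 V F hup
  have f1 : η / C * D ≤ η * ρ := by
    rw [div_mul_eq_mul_div, div_le_iff₀ C0]
    have := mul_le_mul_of_nonneg_left e3 η0.le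
    linarith
  have f2 : η / (2 * C) * D ≤ η * ρ / 2 := by
    have : η / (2 * C) * D = η / C * D / 2 := by
      field_simp
    linarith
  have f3 : 1 / (2 * C) * D ≤ ρ / 2 := by
    rw [div_mul_eq_mul_div, div_le_iff₀ (by positivity)]
    linarith
  have f4 : 0 ≤ η / (2 * C) * D := by positivity
  have t0 : 0 < 1 / 2 + η := by positivity
  obtain ⟨ρ', hρ'⟩ : ∃ ρ', ρ' = (1 / 2 + η) * ρ := ⟨_, rfl⟩
  have r1' : ρ / 2 ≤ ρ' := by
    have := mul_pos η0 ρ0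
    linarith
  have r0 : 0 < ρ' := by linarith
  obtain ⟨b, hb⟩ : ∃ b, b = ⌈ρ' + η / (2 * C) * D⌉₊ := ⟨_, rfl⟩
  have b1 : ρ' + η / (2 * C) * D ≤ b := hb ▸ Nat.le_ceil _
  have b2 : (b : ℝ) < (1 + η) * ρ' + 1 := by
    have a : (b : ℝ) < ρ' + η / (2 * C) * D + 1 := hb ▸ Nat.ceil_lt_add_one (by positivity)
    have c := mul_le_mul_of_nonneg_left r1' η0.le
    linarith
  have b0 : 1 ≤ b := Nat.one_le_iff_ne_zero.2 fun a => by
    rw [a, Nat.cast_zero] at b1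
    linarith
  have b3 : γ * ρ' + b ≤ k + 1 := by
    have c := mul_le_mul_of_nonneg_right η3 ρ0.le
    rw [mul_assoc, ← hρ'] at c
    linarith
  have b4 : b ≤ k := by
    have a : (b : ℝ) < k + 1 := by linarith [mul_pos (by linarith : 0 < γ) r0]
    exact Nat.lt_succ_iff.1 (by exact_mod_cast a)
  obtain ⟨k0, rfl⟩ := Nat.exists_eq_add_of_le' b4
  have b5 : γ * ρ' ≤ k0 + 1 := by
    push_cast at b3
    linarith
  have b6 : b ≤ k0 + 1 + 1 := by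
    have c := mul_le_mul_of_nonneg_right (by linarith : 1 + η ≤ γ) r0.le
    have a : (b : ℝ) ≤ k0 + 1 + 1 := by linarith
    exact_mod_cast a
  have hin : ∀ (S : Finset V) (v w : V), s(v, w) ∈ F → S ⊆ nb F v ∩ A ∨ S ⊆ nb F v \ A →
      (S.card : ℝ) ≤ (1 / 2 + η) * (nb F v).card := fun S v w he hS => by
    have a : (S.card : ℝ) ≤ (nb F v).card / 2 + η / C * D := hS.elim
      (fun a => (Nat.cast_le.2 (card_le_card a)).trans (hA v).1)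
      fun a => (Nat.cast_le.2 (card_le_card a)).trans (hA v).2
    have c := mul_le_mul_of_nonneg_left (ρg.trans (hlow v w he)) η0.le
    linarith
  have hc : ∀ (d t : ℝ) (S : Finset V) (u v : V), min d1 d2 ≤ d → ρ / 2 ≤ t → u ≠ v →
      S ⊆ nb F u ∩ nb F v → (S.card : ℝ) ≤ d * t := fun d t S u v hd ht huv hS => by
    have a : (S.card : ℝ) ≤ (nb F u ∩ nb F v).card := Nat.cast_le.2 (card_le_card hS)
    have c := hco u v huv
    have e := mul_le_mul hd ht (by positivity) ((lt_min d10 d20).le.trans hd)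
    linarith
  have hpos : ∀ {S : Finset V} {a : V}, a ∈ S → (0 : ℝ) < S.card := fun ha =>
    Nat.cast_pos.2 (card_pos.2 ⟨_, ha⟩)
  obtain ⟨F0, hF0⟩ : ∃ F0 : Finset (Sym2 V), ∀ u v, s(u, v) ∈ F0 ↔
      s(u, v) ∈ F ∧ (u ∈ A ↔ v ∈ A) :=
    ⟨F.filter fun e => (∀ v ∈ e, v ∈ A) ∨ ∀ v ∈ e, v ∉ A, fun u v => by
      simp only [mem_filter, Sym2.forall_mem_pair]
      tauto⟩
  obtain ⟨P, hP⟩ : ∃ P : Finset (V × V), ∀ p, p ∈ P ↔ p.1 ∈ A ∧ p.2 ∉ A ∧ s(p.1, p.2) ∈ F :=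
    ⟨univ.filter fun p => p.1 ∈ A ∧ p.2 ∉ A ∧ s(p.1, p.2) ∈ F, fun p => by simp⟩
  have n0 : ∀ v, nb F0 v ⊆ nb F v := fun v a ha => mem_nb.2 ((hF0 _ _).1 (mem_nb.1 ha)).1
  have n1 : ∀ v, nb F0 v ⊆ nb F v ∩ A ∨ nb F0 v ⊆ nb F v \ A := fun v => by
    by_cases hv : v ∈ A
    · exact Or.inl fun a ha => mem_inter.2 ⟨n0 v ha, ((hF0 _ _).1 (mem_nb.1 ha)).2.1 hv⟩
    · exact Or.inr fun a ha => mem_sdiff.2 ⟨n0 v ha, fun c =>
        hv (((hF0 _ _).1 (mem_nb.1 ha)).2.2 c)⟩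
  have nr : ∀ w, nR P w ⊆ nb F w := fun w x hx =>
    mem_nb_comm.1 (mem_nb.2 ((hP _).1 (mem_nR.1 hx)).2.2)
  have nl : ∀ x, nL P x ⊆ nb F x := fun x w hw => mem_nb.2 ((hP _).1 (mem_nL.1 hw)).2.2
  have g0 : GInd k0 F0 ∧ RInd (k0 + 1) F0 := by
    refine H1 ρ' (by linarith) V F0 (Sym2.ind fun u v he => hF _ ((hF0 u v).1 he).1)
      (fun u v he => ?_) (fun u v huv => hc d1 ρ' _ u v (min_le_left _ _) r1' huv
        (inter_subset_inter (n0 u) (n0 v))) k0 b5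
    have a := ((hF0 u v).1 he).1
    rw [hρ']
    exact harm_scale (hpos (mem_nb.2 he)) (hpos (mem_nb_comm.1 (mem_nb.2 he))) t0
      (hin _ u v a (n1 u)) (hin _ v u (Sym2.eq_swap ▸ a) (n1 v)) (hH u v a)
  have g2 : TInd b P := by
    refine H2 D e5 ρ' (by linarith) V A P (fun p hp => ⟨((hP p).1 hp).1, ((hP p).1 hp).2.1⟩)
      (fun x => (card_le_card (nl x)).trans (hup x)) (fun w => (card_le_card (nr w)).trans (hup w))
      (fun p hp => ?_) (fun w w' hw => hc d2 D _ w w' (min_le_right _ _) (by linarith) hw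
        (inter_subset_inter (nr w) (nr w'))) b b1
    have a := ((hP p).1 hp).2.2
    rw [hρ']
    exact harm_scale (hpos (mem_nL.2 hp)) (hpos (mem_nR.2 hp)) t0
      (hin _ p.1 p.2 a (Or.inr fun w hw => mem_sdiff.2 ⟨nl _ hw, ((hP _).1 (mem_nL.1 hw)).2.1⟩))
      (hin _ p.2 p.1 (Sym2.eq_swap ▸ a)
        (Or.inl fun x hx => mem_inter.2 ⟨nr _ hx, ((hP _).1 (mem_nR.1 hx)).1⟩)) (hH p.1 p.2 a)
  have s1 : ∀ u v, s(u, v) ∈ F0 → u ≠ v ∧ (u ∈ A ↔ v ∈ A) := fun u v he =>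
    ⟨fun a => hF _ ((hF0 u v).1 he).1 (Sym2.mk_isDiag_iff.2 a), ((hF0 u v).1 he).2⟩
  have s2 : ∀ p ∈ P, p.1 ∈ A ∧ p.2 ∉ A := fun p hp => ⟨((hP p).1 hp).1, ((hP p).1 hp).2.1⟩
  have s3 : F ⊆ F0 ∪ P.image fun p => s(p.1, p.2) := by
    refine Sym2.ind fun u v he => mem_union.2 ?_
    by_cases hu : u ∈ A <;> by_cases hv : v ∈ A
    · exact Or.inl ((hF0 u v).2 ⟨he, iff_of_true hu hv⟩)
    · exact Or.inr (mem_image.2 ⟨(u, v), (hP _).2 ⟨hu, hv, he⟩, rfl⟩)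
    · exact Or.inr (mem_image.2 ⟨(v, u), (hP _).2 ⟨hv, hu, Sym2.eq_swap ▸ he⟩, Sym2.eq_swap⟩)
    · exact Or.inl ((hF0 u v).2 ⟨he, iff_of_false hu hv⟩)
  refine ⟨(split hq k0 b A F0 P s1 s2 g0.1 g2).mono s3, ?_⟩
  rw [Nat.add_right_comm]
  exact (rsplit (k0 + 1) b b0 b6 A F0 P s1 s2 g0.2 g2).mono s3

end Pool.Agent.Lib.MP_9087e4_co.Mx
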