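import Mathlib
import Pool.Agent.Lib.MP_9087e4_co.Mx.Step2

set_option autoImplicit false

namespace Pool.Agent.Lib.MP_9087e4_co.Mx

open Finset Polynomial Pool.Agent.Lib.MP_f8e628_co

theorem good2_two : Good2 2 := by
  refine ⟨1, one_pos, 0, fun ρ hρ V _ _ F hF hH hc k hk => peel k ρ _ ?_ F hF hH hc⟩
  intro F _ hH _ h
  have : F = ∅ := Finset.eq_empty_of_forall_notMem (Sym2.ind fun u v he => by
    have h1 : (k : ℝ) + 1 < (nb F u).card := by exact_mod_cast h u v he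
    have h2 : (k : ℝ) + 1 < (nb F v).card := by exact_mod_cast h v u (Sym2.eq_swap ▸ he)
    nlinarith [hH u v he, mul_pos (sub_pos.2 (hk.trans_lt h1)) (sub_pos.2 (hk.trans_lt h2))])
  subst this
  exact ⟨⟨0, ind_empty⟩, ⟨0, ind_empty⟩⟩

theorem Good2.mono {γ γ' : ℝ} (h : Good2 γ) (hγ : γ ≤ γ') : Good2 γ' := by
  obtain ⟨δ, hδ, ρ0, h⟩ := h
  exact ⟨δ, hδ, max ρ0 0, fun ρ hρ V _ _ F hF hd hc k hk => h ρ (le_of_max_le_left hρ) V F hF hd
    hc k ((mul_le_mul_of_nonneg_right hγ (le_of_max_le_right hρ)).trans hk)⟩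

theorem good2_all {γ : ℝ} (h : 1 < γ) : Good2 γ := by
  have key : ∀ n : ℕ, Good2 (1 + (2 / 3) ^ n) := by
    intro n
    induction n with
    | zero => exact good2_two.mono (by norm_num)
    | succ n ih =>
      have : (0 : ℝ) < (2 / 3) ^ n := by positivity
      refine good2_step (by linarith) ?_ ih
      rw [pow_succ]
      linarith
  obtain ⟨n, hn⟩ := exists_pow_lt_of_lt_one (sub_pos.2 h) (by norm_num : (2 / 3 : ℝ) < 1)
  exact (key n).mono (by linarith)

end Pool.Agent.Lib.MP_9087e4_co.Mx
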