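import Mathlib
import Pool.Agent.Lib.MP_9087e4_co.Mx.Main2

set_option autoImplicit false

namespace Pool.Agent.Lib.MP_9087e4_co.Mx

theorem sparse_both (ε : ℝ) (hε : 0 < ε) : ∃ δ : ℝ, 0 < δ ∧ ∃ d0 : ℕ, ∀ d : ℕ, d0 ≤ d →
    ∀ (n : ℕ) (G : SimpleGraph (Fin n)),
      (∀ u v, G.Adj u v →
        (1 + ε) * ((G.neighborSet u).ncard * (G.neighborSet v).ncard) ≤
          (d : ℝ) * ((G.neighborSet u).ncard + (G.neighborSet v).ncard)) →
      (∀ u v, u ≠ v → ((G.commonNeighbors u v).ncard : ℝ) ≤ δ * d) →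
      ∃ F : Finset (Sym2 (Fin n)), (F : Set (Sym2 (Fin n))) = G.edgeSet ∧
        GInd (d - 1) F ∧ RInd d F := by
  classical
  have e0 : 0 < 1 + ε := by linarith
  obtain ⟨δ, hδ, ρ0, h⟩ := good2_all (γ := 1 + ε) (by linarith)
  refine ⟨δ / (1 + ε), div_pos hδ e0, ⌈(1 + ε) * ρ0⌉₊ + 1, fun d hd n G h1 h2 =>
    ⟨G.edgeSet.toFinset, by simp, ?_⟩⟩
  have hnb : ∀ v, (nb G.edgeSet.toFinset v : Set (Fin n)) = G.neighborSet v := fun v => by
    ext a; simp [mem_nb]
  have hc : ∀ v, (nb G.edgeSet.toFinset v).card = (G.neighborSet v).ncard := fun v => by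
    rw [← Set.ncard_coe_finset, hnb]
  have := h (d / (1 + ε))
    (by
      rw [le_div_iff₀' e0]
      exact (Nat.le_ceil _).trans (Nat.cast_le.2 (by omega))) (Fin n) G.edgeSet.toFinset
    (fun e he => G.not_isDiag_of_mem_edgeSet (by simpa using he))
    (fun u v he => by
      rw [hc, hc, div_mul_eq_mul_div, le_div_iff₀' e0]
      exact h1 u v (by simpa using he))
    (fun u v huv => by
      rw [← Set.ncard_coe_finset, Finset.coe_inter, hnb, hnb, ← G.commonNeighbors_eq]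
      exact (h2 u v huv).trans_eq (by ring))
    (d - 1) (by
      rw [Nat.cast_sub (by omega), Nat.cast_one, sub_add_cancel, mul_div_cancel₀ _ e0.ne'])
  rwa [Nat.sub_add_cancel (by omega)] at this

end Pool.Agent.Lib.MP_9087e4_co.Mx
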